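import Pool.Agent.H44.Pin.Geo

/-! Order lemmas for non-crossing arcs (functions on intervals). -/

namespace Pool.Agent.H44.Pin

/-- tripod lemma, one direction -/
lemma U1a {z ci cj : ℝ} {ni ai aj bj : AArc} (hzi : z < ci) (hzj : z < cj)
    (hni : ni.l = z ∧ ni.u = ci) (hai : ai.l ≤ z ∧ ai.u = ci)
    (haj : aj.l ≤ z ∧ aj.u = cj) (hbj : bj.l = cj ∧ ci ≤ bj.u)
    (e1 : ni.f ci = ai.f ci) (e2 : aj.f cj = bj.f cj)
    (F1 : Free ni aj) (F2 : Free ni bj) (F3 : Free ai aj) (F4 : Free ai bj)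
    (h1 : ni.f z < aj.f z) (h2 : aj.f z < ai.f z) : False := by
  obtain ⟨n1, n2⟩ := hni
  obtain ⟨a1, a2⟩ := hai
  obtain ⟨a3, a4⟩ := haj
  obtain ⟨b1, b2⟩ := hbj
  rcases le_or_gt ci cj with hc | hc
  · have k1 := F1.lt (x := z) (y := ci) (by refine ⟨?_, ?_, ?_, ?_⟩ <;> linarith)
      (by refine ⟨?_, ?_, ?_, ?_⟩ <;> linarith) h1
    have k2 := F3.gt (x := z) (y := ci) (by refine ⟨?_, ?_, ?_, ?_⟩ <;> linarith)
      (by refine ⟨?_, ?_, ?_, ?_⟩ <;> linarith) h2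
    linarith
  · have k1 := F1.lt (x := z) (y := cj) (by refine ⟨?_, ?_, ?_, ?_⟩ <;> linarith)
      (by refine ⟨?_, ?_, ?_, ?_⟩ <;> linarith) h1
    have k2 := F3.gt (x := z) (y := cj) (by refine ⟨?_, ?_, ?_, ?_⟩ <;> linarith)
      (by refine ⟨?_, ?_, ?_, ?_⟩ <;> linarith) h2
    have k3 := F2.lt (x := cj) (y := ci) (by refine ⟨?_, ?_, ?_, ?_⟩ <;> linarith)
      (by refine ⟨?_, ?_, ?_, ?_⟩ <;> linarith) (by linarith)
    have k4 := F4.gt (x := cj) (y := ci) (by refine ⟨?_, ?_, ?_, ?_⟩ <;> linarith)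
      (by refine ⟨?_, ?_, ?_, ?_⟩ <;> linarith) (by linarith)
    linarith

/-- Data of one copy for the first rule. -/
structure Cop1 (z hz : ℝ) where
  n : AArc
  a : AArc
  b : AArc
  c : ℝ
  zc : z < c
  nl : n.l = z
  nu : n.u = c
  al : a.l ≤ z
  au : a.u = c
  bl : b.l = c
  nz : n.f z = hz
  nc : n.f c = a.f c
  ab : a.f c = b.f c
  az : hz ≠ a.f z

lemma U1abs {z hz : ℝ} (K : Fin 7 → Cop1 z hz)
    (hu : ∀ i j, (K i).c ≤ (K j).b.u)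
    (F1 : ∀ i j, i ≠ j → Free (K i).n (K j).a)
    (F2 : ∀ i j, i ≠ j → Free (K i).n (K j).b)
    (F3 : ∀ i j, i ≠ j → Free (K i).a (K j).a)
    (F4 : ∀ i j, i ≠ j → Free (K i).a (K j).b) : False := by
  have main : ∀ i j, i ≠ j → hz < (K j).a.f z → (K j).a.f z < (K i).a.f z → False := by
    intro i j hij h1 h2
    exact U1a (K i).zc (K j).zc ⟨(K i).nl, (K i).nu⟩ ⟨(K i).al, (K i).au⟩
      ⟨(K j).al, (K j).au⟩ ⟨(K j).bl, hu i j⟩ (K i).nc (K j).ab (F1 i j hij) (F2 i j hij)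
      (F3 i j hij) (F4 i j hij) (by rw [(K i).nz]; exact h1) h2
  have main' : ∀ i j, i ≠ j → (K j).a.f z < hz → (K i).a.f z < (K j).a.f z → False := by
    intro i j hij h1 h2
    refine U1a (ni := (K i).n.neg) (ai := (K i).a.neg) (aj := (K j).a.neg) (bj := (K j).b.neg)
      (K i).zc (K j).zc ⟨(K i).nl, (K i).nu⟩ ⟨(K i).al, (K i).au⟩
      ⟨(K j).al, (K j).au⟩ ⟨(K j).bl, hu i j⟩ (congrArg Neg.neg (K i).nc)
      (congrArg Neg.neg (K j).ab) (F1 i j hij).neg (F2 i j hij).neg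
      (F3 i j hij).neg (F4 i j hij).neg ?_ (neg_lt_neg h2)
    · have := (K i).nz
      show -(K i).n.f z < -(K j).a.f z
      rw [this]
      exact neg_lt_neg h1
  -- three indices with distinct values
  have hne : ∀ i j, i ≠ j → (K i).a.f z ≠ (K j).a.f z := by
    intro i j hij
    have h1 := (K i).zc
    have h2 := (K j).zc
    exact F3 i j hij z (K i).al (by rw [(K i).au]; exact h1.le) (K j).al
      (by rw [(K j).au]; exact h2.le)
  -- a sorted triple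
  have h01 := hne 0 1 (by decide)
  have h02 := hne 0 2 (by decide)
  have h12 := hne 1 2 (by decide)
  have fin : ∀ i j k : Fin 7, i ≠ j → k ≠ j → (K i).a.f z < (K j).a.f z →
      (K j).a.f z < (K k).a.f z → False := by
    intro i j k hij hkj h1 h2
    rcases lt_or_gt_of_ne (K j).az with h | h
    · exact main k j hkj h h2
    · exact main' i j hij h h1
  rcases lt_or_gt_of_ne h01 with a | a <;> rcases lt_or_gt_of_ne h02 with b | b <;>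
    rcases lt_or_gt_of_ne h12 with c | c
  · exact fin 0 1 2 (by decide) (by decide) a c
  · exact fin 0 2 1 (by decide) (by decide) b c
  · linarith
  · exact fin 2 0 1 (by decide) (by decide) b a
  · exact fin 1 0 2 (by decide) (by decide) a b
  · linarith
  · exact fin 1 2 0 (by decide) (by decide) c b
  · exact fin 2 1 0 (by decide) (by decide) c a

/-- Z-shape lemma -/
lemma U2a {z d1 e1 d2 e2 : ℝ} {n1 g1 a1 n2 g2 a2 b2 : AArc}
    (zd1 : z < d1) (zd2 : z < d2) (d1e1 : d1 < e1) (d1e2 : d1 < e2) (d2e1 : d2 < e1)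
    (d2e2 : d2 < e2)
    (In1 : n1.l = z ∧ n1.u = d1) (Ig1 : g1.l = d1 ∧ g1.u = e1) (Ia1 : a1.l ≤ z ∧ a1.u = e1)
    (In2 : n2.l = z ∧ n2.u = d2) (Ig2 : g2.l = d2 ∧ g2.u = e2) (Ia2 : a2.l ≤ z ∧ a2.u = e2)
    (Ib2 : b2.l = d2 ∧ e1 ≤ b2.u)
    (hv : n1.f z = n2.f z) (c1 : n1.f d1 = g1.f d1) (c2 : n2.f d2 = g2.f d2)
    (c2' : b2.f d2 = g2.f d2)
    (x1 : a1.f e1 = g1.f e1) (x2 : a2.f e2 = g2.f e2)
    (F22 : Free n2 a2) (Fna : Free n1 a2) (Fng : Free n1 g2) (Fnb : Free n1 b2)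
    (Fga : Free g1 a2) (Fgg : Free g1 g2) (Faa : Free a1 a2) (Fgb : Free g1 b2)
    (Fab : Free a1 b2)
    (Z2 : a2.f d2 < g2.f d2) (W : a1.f z < a2.f z) : False := by
  obtain ⟨n1l, n1u⟩ := In1
  obtain ⟨g1l, g1u⟩ := Ig1
  obtain ⟨a1l, a1u⟩ := Ia1
  obtain ⟨n2l, n2u⟩ := In2
  obtain ⟨g2l, g2u⟩ := Ig2
  obtain ⟨a2l, a2u⟩ := Ia2
  obtain ⟨b2l, b2u⟩ := Ib2
  -- v above a2
  have s1 : a2.f z < n2.f z := F22.gt (x := d2) (y := z)
    (by refine ⟨?_, ?_, ?_, ?_⟩ <;> linarith) (by refine ⟨?_, ?_, ?_, ?_⟩ <;> linarith)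
    (by linarith)
  have s2 : a2.f d1 < n1.f d1 := Fna.gt (x := z) (y := d1)
    (by refine ⟨?_, ?_, ?_, ?_⟩ <;> linarith) (by refine ⟨?_, ?_, ?_, ?_⟩ <;> linarith)
    (by linarith)
  rcases le_or_gt e1 e2 with he | he
  · have s3 : a2.f e1 < g1.f e1 := Fga.gt (x := d1) (y := e1)
      (by refine ⟨?_, ?_, ?_, ?_⟩ <;> linarith) (by refine ⟨?_, ?_, ?_, ?_⟩ <;> linarith)
      (by linarith)
    have s4 : a1.f e1 < a2.f e1 := Faa.lt (x := z) (y := e1)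
      (by refine ⟨?_, ?_, ?_, ?_⟩ <;> linarith) (by refine ⟨?_, ?_, ?_, ?_⟩ <;> linarith) W
    linarith
  · have s3 : a2.f e2 < g1.f e2 := Fga.gt (x := d1) (y := e2)
      (by refine ⟨?_, ?_, ?_, ?_⟩ <;> linarith) (by refine ⟨?_, ?_, ?_, ?_⟩ <;> linarith)
      (by linarith)
    have s5 : a1.f d2 < a2.f d2 := Faa.lt (x := z) (y := d2)
      (by refine ⟨?_, ?_, ?_, ?_⟩ <;> linarith) (by refine ⟨?_, ?_, ?_, ?_⟩ <;> linarith) W
    have s6 : a1.f e1 < b2.f e1 := Fab.lt (x := d2) (y := e1)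
      (by refine ⟨?_, ?_, ?_, ?_⟩ <;> linarith) (by refine ⟨?_, ?_, ?_, ?_⟩ <;> linarith)
      (by linarith)
    have s7 : b2.f e1 < g1.f e1 := by
      rcases le_or_gt d1 d2 with hd | hd
      · have t1 : g2.f d2 < g1.f d2 := Fgg.gt (x := e2) (y := d2)
          (by refine ⟨?_, ?_, ?_, ?_⟩ <;> linarith) (by refine ⟨?_, ?_, ?_, ?_⟩ <;> linarith)
          (by linarith)
        exact Fgb.gt (x := d2) (y := e1)
          (by refine ⟨?_, ?_, ?_, ?_⟩ <;> linarith) (by refine ⟨?_, ?_, ?_, ?_⟩ <;> linarith)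
          (by linarith)
      · have t1 : g2.f d1 < g1.f d1 := Fgg.gt (x := e2) (y := d1)
          (by refine ⟨?_, ?_, ?_, ?_⟩ <;> linarith) (by refine ⟨?_, ?_, ?_, ?_⟩ <;> linarith)
          (by linarith)
        have t2 : g2.f d2 < n1.f d2 := Fng.gt (x := d1) (y := d2)
          (by refine ⟨?_, ?_, ?_, ?_⟩ <;> linarith) (by refine ⟨?_, ?_, ?_, ?_⟩ <;> linarith)
          (by linarith)
        have t3 : b2.f d1 < n1.f d1 := Fnb.gt (x := d2) (y := d1)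
          (by refine ⟨?_, ?_, ?_, ?_⟩ <;> linarith) (by refine ⟨?_, ?_, ?_, ?_⟩ <;> linarith)
          (by linarith)
        exact Fgb.gt (x := d1) (y := e1)
          (by refine ⟨?_, ?_, ?_, ?_⟩ <;> linarith) (by refine ⟨?_, ?_, ?_, ?_⟩ <;> linarith)
          (by linarith)
    linarith

/-- Data of one copy for the second rule. -/
structure Cop2 (z hz : ℝ) where
  n : AArc
  g : AArc
  a : AArc
  b : AArc
  d : ℝ
  e : ℝ
  zd : z < d
  nl : n.l = z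
  nu : n.u = d
  gl : g.l = d
  gu : g.u = e
  al : a.l ≤ z
  au : a.u = e
  bl : b.l = d
  nz : n.f z = hz
  nd : n.f d = g.f d
  bd : b.f d = g.f d
  ae : a.f e = g.f e
  F : Free n a
  ne : a.f d ≠ g.f d

/-- Order reversal of a copy. -/
def Cop2.neg {z hz : ℝ} (K : Cop2 z hz) : Cop2 z (-hz) where
  n := K.n.neg
  g := K.g.neg
  a := K.a.neg
  b := K.b.neg
  d := K.d
  e := K.e
  zd := K.zd
  nl := K.nl
  nu := K.nu
  gl := K.gl
  gu := K.gu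
  al := K.al
  au := K.au
  bl := K.bl
  nz := congrArg Neg.neg K.nz
  nd := congrArg Neg.neg K.nd
  bd := congrArg Neg.neg K.bd
  ae := congrArg Neg.neg K.ae
  F := K.F.neg
  ne := fun h => K.ne (neg_injective h)

lemma U2b {z hz : ℝ} (K K' : Cop2 z hz) (o1 : K.d < K.e) (o2 : K.d < K'.e) (o3 : K'.d < K.e)
    (o4 : K'.d < K'.e) (o5 : K'.e ≤ K.b.u) (o6 : K.e ≤ K'.b.u)
    (Fna : Free K.n K'.a) (Fng : Free K.n K'.g) (Fnb : Free K.n K'.b)
    (Fga : Free K.g K'.a) (Fgg : Free K.g K'.g) (Faa : Free K.a K'.a) (Fgb : Free K.g K'.b)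
    (Fab : Free K.a K'.b)
    (Fna' : Free K'.n K.a) (Fng' : Free K'.n K.g) (Fnb' : Free K'.n K.b)
    (Fga' : Free K'.g K.a) (Fgb' : Free K'.g K.b)
    (Fab' : Free K'.a K.b)
    (Z : K.a.f K.d < K.g.f K.d) (Z' : K'.a.f K'.d < K'.g.f K'.d) : False := by
  have hne : K.a.f z ≠ K'.a.f z := by
    have h1 := K.zd
    have h2 := K'.zd
    exact Faa z K.al (by rw [K.au]; linarith) K'.al (by rw [K'.au]; linarith)
  rcases lt_or_gt_of_ne hne with h | h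
  · exact U2a K.zd K'.zd o1 o2 o3 o4 ⟨K.nl, K.nu⟩ ⟨K.gl, K.gu⟩ ⟨K.al, K.au⟩ ⟨K'.nl, K'.nu⟩
      ⟨K'.gl, K'.gu⟩ ⟨K'.al, K'.au⟩ ⟨K'.bl, o6⟩ (by rw [K.nz, K'.nz]) K.nd K'.nd K'.bd K.ae K'.ae
      K'.F Fna Fng Fnb Fga Fgg Faa Fgb Fab Z' h
  · exact U2a K'.zd K.zd o4 o3 o2 o1 ⟨K'.nl, K'.nu⟩ ⟨K'.gl, K'.gu⟩ ⟨K'.al, K'.au⟩ ⟨K.nl, K.nu⟩
      ⟨K.gl, K.gu⟩ ⟨K.al, K.au⟩ ⟨K.bl, o5⟩ (by rw [K.nz, K'.nz]) K'.nd K.nd K.bd K'.ae K.ae
      K.F Fna' Fng' Fnb' Fga' Fgg.symm Faa.symm Fgb' Fab' Z h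

lemma U2abs {z hz : ℝ} (K : Fin 7 → Cop2 z hz)
    (o1 : ∀ i j, (K i).d < (K j).e) (o2 : ∀ i j, (K i).e ≤ (K j).b.u)
    (Fna : ∀ i j, i ≠ j → Free (K i).n (K j).a) (Fng : ∀ i j, i ≠ j → Free (K i).n (K j).g)
    (Fnb : ∀ i j, i ≠ j → Free (K i).n (K j).b) (Fga : ∀ i j, i ≠ j → Free (K i).g (K j).a)
    (Fgg : ∀ i j, i ≠ j → Free (K i).g (K j).g) (Faa : ∀ i j, i ≠ j → Free (K i).a (K j).a)
    (Fgb : ∀ i j, i ≠ j → Free (K i).g (K j).b) (Fab : ∀ i j, i ≠ j → Free (K i).a (K j).b) :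
    False := by
  have main : ∀ i j, i ≠ j → (K i).a.f (K i).d < (K i).g.f (K i).d →
      (K j).a.f (K j).d < (K j).g.f (K j).d → False := by
    intro i j h h1 h2
    exact U2b (K i) (K j) (o1 _ _) (o1 _ _) (o1 _ _) (o1 _ _) (o2 _ _) (o2 _ _) (Fna _ _ h)
      (Fng _ _ h) (Fnb _ _ h) (Fga _ _ h) (Fgg _ _ h) (Faa _ _ h) (Fgb _ _ h) (Fab _ _ h)
      (Fna _ _ h.symm) (Fng _ _ h.symm) (Fnb _ _ h.symm) (Fga _ _ h.symm)
      (Fgb _ _ h.symm) (Fab _ _ h.symm) h1 h2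
  have main' : ∀ i j, i ≠ j → (K i).g.f (K i).d < (K i).a.f (K i).d →
      (K j).g.f (K j).d < (K j).a.f (K j).d → False := by
    intro i j h h1 h2
    exact U2b (K i).neg (K j).neg (o1 i j |>.trans_le le_rfl |> fun _ => o1 i i) (o1 i j)
      (o1 j i) (o1 j j) (o2 j i) (o2 i j) (Fna _ _ h).neg
      (Fng _ _ h).neg (Fnb _ _ h).neg (Fga _ _ h).neg (Fgg _ _ h).neg (Faa _ _ h).neg
      (Fgb _ _ h).neg (Fab _ _ h).neg
      (Fna _ _ h.symm).neg (Fng _ _ h.symm).neg (Fnb _ _ h.symm).neg (Fga _ _ h.symm).neg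
      (Fgb _ _ h.symm).neg (Fab _ _ h.symm).neg (neg_lt_neg h1) (neg_lt_neg h2)
  rcases lt_or_gt_of_ne (K 0).ne with a | a <;> rcases lt_or_gt_of_ne (K 1).ne with b | b <;>
    rcases lt_or_gt_of_ne (K 2).ne with c | c
  · exact main 0 1 (by decide) a b
  · exact main 0 1 (by decide) a b
  · exact main 0 2 (by decide) a c
  · exact main' 1 2 (by decide) b c
  · exact main 1 2 (by decide) b c
  · exact main' 0 2 (by decide) a c
  · exact main' 0 1 (by decide) a b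
  · exact main' 0 1 (by decide) a b

end Pool.Agent.H44.Pin
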