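import Pool.Agent.H44.Pin.Abs

/-! Third rule and the order of monotone paths. -/

namespace Pool.Agent.H44.Pin

/-- Data of one copy for the third rule. -/
structure Cop3 (z hz : ℝ) where
  n : AArc
  g : AArc
  a : AArc
  b : AArc
  d : ℝ
  e : ℝ
  ze : z < e
  nl : n.l = z
  nu : n.u = d
  gl : g.l = e
  gu : g.u = d
  al : a.l ≤ z
  au : a.u = d
  bl : b.l = e
  nz : n.f z = hz
  nd : n.f d = g.f d
  ad : a.f d = g.f d
  be : b.f e = g.f e
  F : Free a b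
  ne : a.f e ≠ b.f e
  nez : hz ≠ a.f z

/-- Order reversal of a copy. -/
def Cop3.neg {z hz : ℝ} (K : Cop3 z hz) : Cop3 z (-hz) where
  n := K.n.neg
  g := K.g.neg
  a := K.a.neg
  b := K.b.neg
  d := K.d
  e := K.e
  ze := K.ze
  nl := K.nl
  nu := K.nu
  gl := K.gl
  gu := K.gu
  al := K.al
  au := K.au
  bl := K.bl
  nz := congrArg Neg.neg K.nz
  nd := congrArg Neg.neg K.nd
  ad := congrArg Neg.neg K.ad
  be := congrArg Neg.neg K.be
  F := K.F.neg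
  ne := fun h => K.ne (neg_injective h)
  nez := fun h => K.nez (neg_injective h)

lemma U3a {z hz : ℝ} (K L : Cop3 z hz) (o1 : K.e < K.d) (o2 : K.e < L.d) (o3 : L.e < K.d)
    (o4 : L.e < L.d) (o6 : K.d ≤ L.b.u)
    (Fna : Free K.n L.a) (Fng : Free K.n L.g) (Fnb : Free K.n L.b)
    (Faa : Free K.a L.a) (Fab : Free K.a L.b)
    (Z : L.a.f L.e < L.b.f L.e) (V : L.a.f z < hz) (W : K.a.f z < L.a.f z) : False := by
  have k1 := K.ze
  have k2 := L.ze
  have k3 := K.nl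
  have k4 := K.nu
  have k7 := K.al
  have k8 := K.au
  have k9 := L.al
  have k10 := L.au
  have k11 := L.gl
  have k12 := L.gu
  have k13 := L.bl
  have v1 := K.nz
  have v2 := K.nd
  have v3 := K.ad
  have v4 := L.ad
  have v5 := L.be
  rcases le_or_gt K.d L.d with hd | hd
  · have s1 : L.a.f K.d < K.n.f K.d := Fna.gt (x := z) (y := K.d)
      (by refine ⟨?_, ?_, ?_, ?_⟩ <;> linarith) (by refine ⟨?_, ?_, ?_, ?_⟩ <;> linarith)
      (by linarith)
    have s2 : K.a.f K.d < L.a.f K.d := Faa.lt (x := z) (y := K.d)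
      (by refine ⟨?_, ?_, ?_, ?_⟩ <;> linarith) (by refine ⟨?_, ?_, ?_, ?_⟩ <;> linarith) W
    linarith
  · have s1 : L.a.f L.d < K.n.f L.d := Fna.gt (x := z) (y := L.d)
      (by refine ⟨?_, ?_, ?_, ?_⟩ <;> linarith) (by refine ⟨?_, ?_, ?_, ?_⟩ <;> linarith)
      (by linarith)
    have s2 : L.g.f L.e < K.n.f L.e := Fng.gt (x := L.d) (y := L.e)
      (by refine ⟨?_, ?_, ?_, ?_⟩ <;> linarith) (by refine ⟨?_, ?_, ?_, ?_⟩ <;> linarith)
      (by linarith)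
    have s3 : L.b.f K.d < K.n.f K.d := Fnb.gt (x := L.e) (y := K.d)
      (by refine ⟨?_, ?_, ?_, ?_⟩ <;> linarith) (by refine ⟨?_, ?_, ?_, ?_⟩ <;> linarith)
      (by linarith)
    have s4 : L.b.f L.e < K.a.f L.e := Fab.gt (x := K.d) (y := L.e)
      (by refine ⟨?_, ?_, ?_, ?_⟩ <;> linarith) (by refine ⟨?_, ?_, ?_, ?_⟩ <;> linarith)
      (by linarith)
    have s5 : K.a.f L.e < L.a.f L.e := Faa.lt (x := z) (y := L.e)
      (by refine ⟨?_, ?_, ?_, ?_⟩ <;> linarith) (by refine ⟨?_, ?_, ?_, ?_⟩ <;> linarith) W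
    linarith

lemma U3b {z hz : ℝ} (K L : Cop3 z hz) (o1 : K.e < K.d) (o2 : K.e < L.d) (o3 : L.e < K.d)
    (o4 : L.e < L.d) (o5 : K.d ≤ K.b.u) (o6 : L.d ≤ K.b.u)
    (Fna : Free L.n K.a) (Fnb : Free L.n K.b)
    (Faa : Free K.a L.a) (Fab : Free L.a K.b) (Fag : Free L.a K.g)
    (Z : K.a.f K.e < K.b.f K.e) (V : hz < K.a.f z) (W : K.a.f z < L.a.f z) : False := by
  have k1 := K.ze
  have k2 := L.ze
  have k3 := L.nl
  have k4 := L.nu
  have k7 := K.al
  have k8 := K.au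
  have k9 := L.al
  have k10 := L.au
  have k11 := K.gl
  have k12 := K.gu
  have k13 := K.bl
  have v1 := L.nz
  have v2 := L.nd
  have v3 := K.ad
  have v4 := L.ad
  have v5 := K.be
  rcases le_or_gt L.d K.d with hd | hd
  · have s1 : L.n.f L.d < K.a.f L.d := Fna.lt (x := z) (y := L.d)
      (by refine ⟨?_, ?_, ?_, ?_⟩ <;> linarith) (by refine ⟨?_, ?_, ?_, ?_⟩ <;> linarith)
      (by linarith)
    have s2 : K.a.f L.d < L.a.f L.d := Faa.lt (x := z) (y := L.d)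
      (by refine ⟨?_, ?_, ?_, ?_⟩ <;> linarith) (by refine ⟨?_, ?_, ?_, ?_⟩ <;> linarith) W
    linarith
  · have s1 : L.n.f K.d < K.a.f K.d := Fna.lt (x := z) (y := K.d)
      (by refine ⟨?_, ?_, ?_, ?_⟩ <;> linarith) (by refine ⟨?_, ?_, ?_, ?_⟩ <;> linarith)
      (by linarith)
    have s2 : K.a.f K.d < K.b.f K.d := K.F.lt (x := K.e) (y := K.d)
      (by refine ⟨?_, ?_, ?_, ?_⟩ <;> linarith) (by refine ⟨?_, ?_, ?_, ?_⟩ <;> linarith) Z
    have s3 : L.n.f L.d < K.b.f L.d := Fnb.lt (x := K.d) (y := L.d)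
      (by refine ⟨?_, ?_, ?_, ?_⟩ <;> linarith) (by refine ⟨?_, ?_, ?_, ?_⟩ <;> linarith)
      (by linarith)
    have s4 : L.a.f K.e < K.b.f K.e := Fab.lt (x := L.d) (y := K.e)
      (by refine ⟨?_, ?_, ?_, ?_⟩ <;> linarith) (by refine ⟨?_, ?_, ?_, ?_⟩ <;> linarith)
      (by linarith)
    have s5 : L.a.f K.d < K.g.f K.d := Fag.lt (x := K.e) (y := K.d)
      (by refine ⟨?_, ?_, ?_, ?_⟩ <;> linarith) (by refine ⟨?_, ?_, ?_, ?_⟩ <;> linarith)
      (by linarith)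
    have s6 : K.a.f K.d < L.a.f K.d := Faa.lt (x := z) (y := K.d)
      (by refine ⟨?_, ?_, ?_, ?_⟩ <;> linarith) (by refine ⟨?_, ?_, ?_, ?_⟩ <;> linarith) W
    linarith

lemma U3c {z hz : ℝ} (K L : Cop3 z hz) (o1 : K.e < K.d) (o2 : K.e < L.d) (o3 : L.e < K.d)
    (o4 : L.e < L.d) (o5 : K.d ≤ K.b.u) (o6 : L.d ≤ K.b.u) (o7 : K.d ≤ L.b.u)
    (o8 : L.d ≤ L.b.u)
    (Fna : Free K.n L.a) (Fng : Free K.n L.g) (Fnb : Free K.n L.b)
    (Faa : Free K.a L.a) (Fab : Free K.a L.b) (Fag : Free K.a L.g)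
    (Gna : Free L.n K.a) (Gng : Free L.n K.g) (Gnb : Free L.n K.b)
    (Gab : Free L.a K.b) (Gag : Free L.a K.g)
    (ZK : K.a.f K.e < K.b.f K.e) (ZL : L.a.f L.e < L.b.f L.e)
    (V : (K.a.f z < hz ∧ L.a.f z < hz) ∨ (hz < K.a.f z ∧ hz < L.a.f z)) : False := by
  have hne : K.a.f z ≠ L.a.f z := by
    have h1 := K.ze
    have h2 := L.ze
    exact Faa z K.al (by rw [K.au]; linarith) L.al (by rw [L.au]; linarith)
  rcases lt_or_gt_of_ne hne with h | h <;> rcases V with V | V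
  · exact U3a K L o1 o2 o3 o4 o7 Fna Fng Fnb Faa Fab ZL V.2 h
  · exact U3b K L o1 o2 o3 o4 o5 o6 Gna Gnb Faa Gab Gag ZK V.1 h
  · exact U3a L K o4 o3 o2 o1 o6 Gna Gng Gnb Faa.symm Gab ZK V.1 h
  · exact U3b L K o4 o3 o2 o1 o8 o7 Fna Fnb Faa.symm Fab Fag ZL V.2 h

lemma U3abs {z hz : ℝ} (K : Fin 7 → Cop3 z hz)
    (o1 : ∀ i j, (K i).e < (K j).d) (o2 : ∀ i j, (K i).d ≤ (K j).b.u)
    (Fna : ∀ i j, i ≠ j → Free (K i).n (K j).a) (Fng : ∀ i j, i ≠ j → Free (K i).n (K j).g)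
    (Fnb : ∀ i j, i ≠ j → Free (K i).n (K j).b) (Faa : ∀ i j, i ≠ j → Free (K i).a (K j).a)
    (Fab : ∀ i j, i ≠ j → Free (K i).a (K j).b) (Fag : ∀ i j, i ≠ j → Free (K i).a (K j).g) :
    False := by
  have main : ∀ i j, i ≠ j → (K i).a.f (K i).e < (K i).b.f (K i).e →
      (K j).a.f (K j).e < (K j).b.f (K j).e →
      (((K i).a.f z < hz ∧ (K j).a.f z < hz) ∨ (hz < (K i).a.f z ∧ hz < (K j).a.f z)) →
      False := by
    intro i j h h1 h2 h3
    exact U3c (K i) (K j) (o1 _ _) (o1 _ _) (o1 _ _) (o1 _ _) (o2 _ _) (o2 _ _) (o2 _ _)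
      (o2 _ _) (Fna _ _ h)
      (Fng _ _ h) (Fnb _ _ h) (Faa _ _ h) (Fab _ _ h) (Fag _ _ h)
      (Fna _ _ h.symm) (Fng _ _ h.symm) (Fnb _ _ h.symm) (Fab _ _ h.symm)
      (Fag _ _ h.symm) h1 h2 h3
  have main' : ∀ i j, i ≠ j → (K i).b.f (K i).e < (K i).a.f (K i).e →
      (K j).b.f (K j).e < (K j).a.f (K j).e →
      (((K i).a.f z < hz ∧ (K j).a.f z < hz) ∨ (hz < (K i).a.f z ∧ hz < (K j).a.f z)) →
      False := by
    intro i j h h1 h2 h3
    refine U3c (K i).neg (K j).neg (o1 i i) (o1 i j)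
      (o1 j i) (o1 j j) (o2 i i) (o2 j i) (o2 i j) (o2 j j) (Fna _ _ h).neg
      (Fng _ _ h).neg (Fnb _ _ h).neg (Faa _ _ h).neg (Fab _ _ h).neg (Fag _ _ h).neg
      (Fna _ _ h.symm).neg (Fng _ _ h.symm).neg (Fnb _ _ h.symm).neg (Fab _ _ h.symm).neg
      (Fag _ _ h.symm).neg (neg_lt_neg h1) (neg_lt_neg h2) ?_
    rcases h3 with h3 | h3
    · right
      exact ⟨neg_lt_neg h3.1, neg_lt_neg h3.2⟩
    · left
      exact ⟨neg_lt_neg h3.1, neg_lt_neg h3.2⟩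
  -- pigeonhole on four classes
  classical
  let cls : Fin 7 → Bool × Bool := fun i =>
    (decide ((K i).a.f (K i).e < (K i).b.f (K i).e), decide ((K i).a.f z < hz))
  obtain ⟨i, j, hij, hc⟩ := Fintype.exists_ne_map_eq_of_card_lt cls (by simp)
  simp only [cls, Prod.mk.injEq, decide_eq_decide] at hc
  obtain ⟨c1, c2⟩ := hc
  have hV : (((K i).a.f z < hz ∧ (K j).a.f z < hz) ∨ (hz < (K i).a.f z ∧ hz < (K j).a.f z)) := by
    by_cases h : (K i).a.f z < hz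
    · exact Or.inl ⟨h, c2.1 h⟩
    · exact Or.inr ⟨lt_of_le_of_ne (not_lt.1 h) (K i).nez,
        lt_of_le_of_ne (not_lt.1 (fun h' => h (c2.2 h'))) (K j).nez⟩
  by_cases h : (K i).a.f (K i).e < (K i).b.f (K i).e
  · exact main i j hij h (c1.1 h) hV
  · exact main' i j hij (lt_of_le_of_ne (not_lt.1 h) (K i).ne.symm)
      (lt_of_le_of_ne (not_lt.1 (fun h' => h (c1.2 h'))) (K j).ne.symm) hV

/-- Arcs reachable from the base arc `b` inside the set `T` by monotone paths. -/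
def Rch (T : AArc → Prop) (b : AArc) : ℕ → AArc → Prop
  | 0, e => e = b
  | n + 1, e => T e ∧ ∃ e0, Rch T b n e0 ∧ e0.l ≤ e0.u ∧ e0.u = e.l ∧ e0.f e.l = e.f e.l

lemma Rch_lo {T : AArc → Prop} {b : AArc} : ∀ {n : ℕ} {e : AArc}, Rch T b n e → b.l ≤ e.l
  | 0, e, h => by
    have : e = b := h
    rw [this]
  | n + 1, e, h => by
    obtain ⟨-, e0, h1, h2, h3, -⟩ := h
    have := Rch_lo h1
    linarith

lemma Rch_mem {T : AArc → Prop} {b : AArc} : ∀ {n : ℕ} {e : AArc}, Rch T b n e → e = b ∨ T e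
  | 0, _, h => Or.inl h
  | _ + 1, _, h => Or.inr h.1

lemma Rch_order {T T' : AArc → Prop} {b b' : AArc} {t0 : ℝ}
    (hF : ∀ e e', (e = b ∨ T e) → (e' = b' ∨ T' e') → Free e e')
    (h0 : b.f t0 < b'.f t0) (hb : b.l = t0) (hb' : b'.l = t0) (hu : t0 ≤ b.u)
    (hu' : t0 ≤ b'.u) :
    ∀ (k n m : ℕ), n + m = k → ∀ e e', Rch T b n e → Rch T' b' m e' →
      ∀ t, e.l ≤ t → t ≤ e.u → e'.l ≤ t → t ≤ e'.u → e.f t < e'.f t := by
  intro k
  induction k with
  | zero =>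
    intro n m hnm e e' he he' t h1 h2 h3 h4
    obtain rfl : n = 0 := by omega
    obtain rfl : m = 0 := by omega
    have he : e = b := he
    have he' : e' = b' := he'
    subst he he'
    exact (hF _ _ (Or.inl rfl) (Or.inl rfl)).lt (x := t0) (y := t) ⟨hb.le, hu, hb'.le, hu'⟩
      ⟨h1, h2, h3, h4⟩ h0
  | succ k ih =>
    intro n m hnm e e' he he' t h1 h2 h3 h4
    have hfree := hF e e' (Rch_mem he) (Rch_mem he')
    have lo := Rch_lo he
    have lo' := Rch_lo he'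
    -- either the left end of `e` or that of `e'` is the later one
    have cs : (∃ n', n = n' + 1 ∧ e'.l ≤ e.l) ∨ (∃ m', m = m' + 1 ∧ e.l ≤ e'.l) := by
      rcases n with _ | n'
      · rcases m with _ | m'
        · omega
        · right
          refine ⟨m', rfl, ?_⟩
          have : e = b := he
          rw [this, hb, ← hb']
          exact lo'
      · rcases m with _ | m'
        · left
          refine ⟨n', rfl, ?_⟩
          have : e' = b' := he'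
          rw [this, hb', ← hb]
          exact lo
        · rcases le_total e'.l e.l with h | h
          · exact Or.inl ⟨n', rfl, h⟩
          · exact Or.inr ⟨m', rfl, h⟩
    rcases cs with ⟨n', rfl, hl⟩ | ⟨m', rfl, hl⟩
    · obtain ⟨-, e0, q1, q2, q3, q4⟩ := he
      have := ih n' m (by omega) e0 e' q1 he' e.l (by linarith) (by linarith) hl (by linarith)
      exact hfree.lt (x := e.l) (y := t) ⟨le_rfl, by linarith, hl, by linarith⟩
        ⟨h1, h2, h3, h4⟩ (by rw [← q4]; exact this)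
    · obtain ⟨-, e0, q1, q2, q3, q4⟩ := he'
      have := ih n m' (by omega) e e0 he q1 e'.l hl (by linarith) (by linarith) (by linarith)
      exact hfree.lt (x := e'.l) (y := t) ⟨hl, by linarith, le_rfl, by linarith⟩
        ⟨h1, h2, h3, h4⟩ (by rw [← q4]; exact this)

end Pool.Agent.H44.Pin
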