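import Pool.Agent.H44.Pin.Tree

/-! The universal tree cannot be drawn. -/

namespace Pool.Agent.H44.Pin

/-- number of children needed -/
noncomputable def MM : ℕ := M0 1 + M0 2 + M0 7

/-- number of copies of every child -/
noncomputable def KK : ℕ := ∑ h ∈ Finset.range 16, (Pat h).card * MM

lemma Pat_le_KK {h : ℕ} (hh : h < 16) : (Pat h).card * MM ≤ KK :=
  Finset.single_le_sum (f := fun h => (Pat h).card * MM) (fun _ _ => Nat.zero_le _)
    (Finset.mem_range.2 hh)

/-- the `i`-th child with label `A` -/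
def uch {N H : ℕ} (v : UV N H) (h : v.1.length < H) (A : Fin 5) (i : Fin N) : UV N H :=
  ⟨(A, i) :: v.1, by rw [List.length_cons]; omega⟩

theorem noDraw (q : UV (KK + 1) 16 → ℝ × ℝ) (hq : Function.Injective q)
    (θ : UV (KK + 1) 16 → ℝ)
    (hθ : ∀ v, (B (ukap v.1 % 6) : ℝ) < θ v ∧ θ v < (B (ukap v.1 % 6) : ℝ) + 1)
    (hl : ∀ v, ∃ r : ℝ, q v = (r * C (θ v), -(r * S (θ v))))
    (hc : ∀ u v u' v', (UT (KK + 1) 16).Adj u v → (UT (KK + 1) 16).Adj u' v' →
      s(u, v) ≠ s(u', v') → Disjoint (openSegment ℝ (q u) (q v)) (openSegment ℝ (q u') (q v'))) :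
    False := by
  classical
  set D := uD q hq θ hθ hl hc with hD
  have rich : ∀ v, D.good v → D.dep v < 16 → ∀ A, ∃ s : Finset (UV (KK + 1) 16),
      (∀ h < 16, (Pat h).card * MM ≤ s.card) ∧ ∀ c ∈ s, D.ch v A c := by
    intro v hv hd A
    have hd : v.1.length < 16 := hd
    let I : Finset (Fin (KK + 1)) := Finset.univ.filter (fun i => q (uch v hd A i) ≠ 0)
    have hinj : Function.Injective (uch v hd A) := by
      intro i j hij
      have := congrArg Subtype.val hij
      simp only [uch, List.cons.injEq, Prod.mk.injEq, true_and, and_true] at this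
      exact this
    have hI : KK ≤ I.card := by
      have h1 : (Finset.univ.filter (fun i => q (uch v hd A i) = 0)).card ≤ 1 := by
        rw [Finset.card_le_one]
        intro a ha b hb
        rw [Finset.mem_filter] at ha hb
        exact hinj (hq (ha.2.trans hb.2.symm))
      have h2 : (Finset.univ.filter (fun i => q (uch v hd A i) = 0)).card + I.card = KK + 1 := by
        have := Finset.card_filter_add_card_filter_not (s := (Finset.univ : Finset (Fin (KK + 1))))
          (p := fun i => q (uch v hd A i) = 0)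
        rw [Finset.card_univ, Fintype.card_fin] at this
        exact this
      omega
    refine ⟨I.image (uch v hd A), ?_, ?_⟩
    · intro h hh
      rw [Finset.card_image_of_injective _ hinj]
      exact (Pat_le_KK hh).trans hI
    · intro c hc
      rw [Finset.mem_image] at hc
      obtain ⟨i, hi, rfl⟩ := hc
      exact ⟨hv, (Finset.mem_filter.1 hi).2, i, rfl⟩
  -- a good vertex near the root
  obtain ⟨v, hv, hd⟩ : ∃ v, D.good v ∧ D.dep v ≤ 1 := by
    have hr : (uroot (KK + 1) 16).1.length < 16 := by simp [uroot]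
    by_cases h0 : q (uroot (KK + 1) 16) = 0
    · refine ⟨uch (uroot (KK + 1) 16) hr 0 0, ?_, ?_⟩
      · intro h1
        have := hq (h1.trans h0.symm)
        have := congrArg (fun v : UV (KK + 1) 16 => v.1.length) this
        simp [uch, uroot] at this
      · show (uch (uroot (KK + 1) 16) hr 0 0).1.length ≤ 1
        simp [uch, uroot]
    · exact ⟨uroot (KK + 1) 16, h0, by show (uroot (KK + 1) 16).1.length ≤ 1; simp [uroot]⟩
  obtain ⟨f, -, -, Hf⟩ := homog (D := D) (M := MM) (H := 16) rich 15 v hv (by omega)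
  exact noHom Hf hv (by unfold MM; omega) (by unfold MM; omega) (by unfold MM; omega)

/-- distinct angles in the prescribed cells -/
theorem exists_angles (N H : ℕ) : ∃ θ : UV N H → ℝ, Function.Injective θ ∧
    ∀ v, (B (ukap v.1 % 6) : ℝ) < θ v ∧ θ v < (B (ukap v.1 % 6) : ℝ) + 1 := by
  classical
  haveI : Fintype (UV N H) := Fintype.ofFinite _
  let e := Fintype.equivFin (UV N H)
  set n := Fintype.card (UV N H) with hn
  have hpos : (0 : ℝ) < (n : ℝ) + 1 := by positivity
  have hfr : ∀ v, 0 < (((e v : ℕ) : ℝ) + 1) / ((n : ℝ) + 1) ∧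
      (((e v : ℕ) : ℝ) + 1) / ((n : ℝ) + 1) < 1 := by
    intro v
    have h1 : ((e v : ℕ) : ℝ) < (n : ℝ) := by exact_mod_cast (e v).isLt
    constructor
    · positivity
    · rw [div_lt_one hpos]; linarith
  refine ⟨fun v => (B (ukap v.1 % 6) : ℝ) + (((e v : ℕ) : ℝ) + 1) / ((n : ℝ) + 1), ?_, ?_⟩
  · intro v w h
    simp only at h
    have hv := hfr v
    have hw := hfr w
    have hB : B (ukap v.1 % 6) = B (ukap w.1 % 6) := by
      have h1 : (B (ukap v.1 % 6) : ℝ) < (B (ukap w.1 % 6) : ℝ) + 1 := by linarith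
      have h2 : (B (ukap w.1 % 6) : ℝ) < (B (ukap v.1 % 6) : ℝ) + 1 := by linarith
      have h1' : B (ukap v.1 % 6) < B (ukap w.1 % 6) + 1 := by exact_mod_cast h1
      have h2' : B (ukap w.1 % 6) < B (ukap v.1 % 6) + 1 := by exact_mod_cast h2
      omega
    rw [hB, add_right_inj, div_left_inj' hpos.ne', add_left_inj] at h
    have h3 : (e v : ℕ) = (e w : ℕ) := by exact_mod_cast h
    exact e.injective (Fin.ext h3)
  · intro v
    have := hfr v
    constructor <;> linarith

lemma B_range {k : ℤ} (h0 : 0 ≤ k) (h1 : k < 6) : 0 ≤ B k ∧ B k ≤ 8 := by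
  unfold B; omega

/-- Main theorem in raw form. -/
theorem main : ∃ (n : ℕ) (t : Fin n → ℝ) (π : UV (KK + 1) 16 ≃ Fin n),
    StrictMono t ∧ (∀ i j, t j < t i + Real.pi) ∧
    ¬ ∃ p : Fin n → ℝ × ℝ, Function.Injective p ∧
      (∀ i, ∃ r : ℝ, p i = (r * Real.cos (t i), -(r * Real.sin (t i)))) ∧
      ∀ u v u' v', (UT (KK + 1) 16).Adj u v → (UT (KK + 1) 16).Adj u' v' →
        s(u, v) ≠ s(u', v') →
        Disjoint (openSegment ℝ (p (π u)) (p (π v))) (openSegment ℝ (p (π u')) (p (π v'))) := by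
  classical
  haveI : Fintype (UV (KK + 1) 16) := Fintype.ofFinite _
  obtain ⟨θ, hinj, hθ⟩ := exists_angles (KK + 1) 16
  set n := Fintype.card (UV (KK + 1) 16) with hn
  let s : Finset ℝ := Finset.univ.image θ
  have hs : s.card = n := by
    rw [Finset.card_image_of_injective _ hinj, Finset.card_univ]
  let e1 : UV (KK + 1) 16 ≃ s := Equiv.ofBijective
    (fun v => ⟨θ v, Finset.mem_image_of_mem _ (Finset.mem_univ _)⟩) (by
      constructor
      · intro v w h
        exact hinj (congrArg Subtype.val h)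
      · rintro ⟨x, hx⟩
        obtain ⟨v, -, rfl⟩ := Finset.mem_image.1 hx
        exact ⟨v, rfl⟩)
  let e2 : Fin n ≃o s := s.orderIsoOfFin hs
  have hθ' : ∀ v, 0 < θ v ∧ θ v < 9 := by
    intro v
    have h1 := B_range (k := ukap v.1 % 6) (by omega) (by omega)
    have h2 := hθ v
    have h3 : (0 : ℝ) ≤ (B (ukap v.1 % 6) : ℝ) := by exact_mod_cast h1.1
    have h4 : (B (ukap v.1 % 6) : ℝ) ≤ 8 := by exact_mod_cast h1.2
    constructor <;> linarith
  have hrange : ∀ i, 0 < (e2 i : ℝ) ∧ (e2 i : ℝ) < 9 := by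
    intro i
    obtain ⟨v, hv⟩ := e1.surjective (e2 i)
    rw [← hv]
    exact hθ' v
  refine ⟨n, fun i => (e2 i : ℝ) * (Real.pi / 12), e1.trans e2.symm.toEquiv, ?_, ?_, ?_⟩
  · intro i j hij
    have h1 : (e2 i : ℝ) < (e2 j : ℝ) := e2.strictMono hij
    have h2 := Real.pi_pos
    show (e2 i : ℝ) * (Real.pi / 12) < (e2 j : ℝ) * (Real.pi / 12)
    nlinarith
  · intro i j
    have h1 := hrange i
    have h2 := hrange j
    have h3 := Real.pi_pos
    show (e2 j : ℝ) * (Real.pi / 12) < (e2 i : ℝ) * (Real.pi / 12) + Real.pi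
    nlinarith
  · rintro ⟨p, hp, hpl, hpc⟩
    refine noDraw (fun v => p ((e1.trans e2.symm.toEquiv) v)) (hp.comp (Equiv.injective _)) θ hθ
      ?_ hpc
    intro v
    obtain ⟨r, hr⟩ := hpl ((e1.trans e2.symm.toEquiv) v)
    have he : ((e2 ((e1.trans e2.symm.toEquiv) v) : s) : ℝ) = θ v := by
      simp [e1]
    simp only [he] at hr
    exact ⟨r, hr⟩

end Pool.Agent.H44.Pin
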