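import Pool.Agent.H44.Pin.Abs3

/-! Drawings of rooted trees with vertices on lines through the origin. -/

namespace Pool.Agent.H44.Pin

/-- The left end (in units of `π / 12`) of the cell number `P`. -/
def B (P : ℤ) : ℤ := 6 * (P / 3) + P % 3

lemma B_lt {P Q : ℤ} (h : P < Q) : B P + 1 ≤ B Q := by unfold B; omega

lemma B_lt12 {P Q : ℤ} (h : Q < P + 6) : B Q + 1 ≤ B P + 12 := by unfold B; omega

lemma B_add (P j : ℤ) : B (P + 6 * j) = B P + 12 * j := by unfold B; omega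

lemma B_mir (P : ℤ) : B (5 - P) = 8 - B P := by unfold B; omega

/-- Cross product. -/
def cross (x y : ℝ × ℝ) : ℝ := x.1 * y.2 - x.2 * y.1

/-- A drawing of a rooted forest whose (good) vertices lie on lines through the origin, with
angles in prescribed cells. -/
structure Drw (V : Type) where
  p : V → ℝ × ℝ
  par : V → V
  dep : V → ℕ
  κ : V → ℤ
  good : V → Prop
  ch : V → Fin 5 → V → Prop
  ch_good : ∀ {v A c}, ch v A c → good v ∧ good c
  ch_par : ∀ {v A c}, ch v A c → par c = v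
  ch_dep : ∀ {v A c}, ch v A c → dep c = dep v + 1
  ch_κ : ∀ {v A c}, ch v A c → ∃ m : ℤ, κ c = κ v + ((A.val : ℤ) + 1) + 6 * m
  inj : ∀ {v w}, p v = p w → v = w
  line : ∀ {v}, good v → ∃ t x : ℝ, x ≠ 0 ∧ (B (κ v) : ℝ) < t ∧ t < (B (κ v) : ℝ) + 1 ∧
    p v = (x * C t, -(x * S t))
  nc : ∀ {v A c v' A' c'}, ch v A c → ch v' A' c' → c ≠ c' →
    Disjoint (openSegment ℝ (p v) (p c)) (openSegment ℝ (p v') (p c'))

variable {V : Type} {D : Drw V}

/-- The open segment from the parent of `c` to `c`. -/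
def Drw.seg (D : Drw V) (c : V) : Set (ℝ × ℝ) := openSegment ℝ (D.p (D.par c)) (D.p c)

/-- `c` is a child of its parent. -/
def Drw.isCh (D : Drw V) (c : V) : Prop := ∃ A, D.ch (D.par c) A c

lemma Drw.isCh_of {c : V} (h : ∃ v A, D.ch v A c) : D.isCh c := by
  obtain ⟨v, A, h⟩ := h
  exact ⟨A, by rw [D.ch_par h]; exact h⟩

lemma Drw.nc' {c c' : V} (h : D.isCh c) (h' : D.isCh c') (hne : c ≠ c') :
    Disjoint (D.seg c) (D.seg c') := by
  obtain ⟨A, h⟩ := h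
  obtain ⟨A', h'⟩ := h'
  exact D.nc h h' hne

open Classical in
/-- Direction of the edge from the parent of `c` to `c`: `true` means clockwise. -/
noncomputable def Drw.dir (D : Drw V) (c : V) : Bool :=
  decide (cross (D.p (D.par c)) (D.p c) < 0)

lemma Drw.dir_true {c : V} : D.dir c = true ↔ cross (D.p (D.par c)) (D.p c) < 0 := by
  unfold Drw.dir; simp

lemma Drw.dir_false {c : V} : D.dir c = false ↔ 0 ≤ cross (D.p (D.par c)) (D.p c) := by
  unfold Drw.dir; simp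

/-- A lifted vertex. -/
structure LV (D : Drw V) where
  v : V
  P : ℤ
  a : ℝ
  h : ℝ
  hpos : 0 < h
  hp : D.p v = pt a h
  lo : (B P : ℝ) < a
  hi : a < (B P : ℝ) + 1
  hκ : ∃ m : ℤ, P = D.κ v + 6 * m

lemma LV.lt {X Y : LV D} (h : X.P < Y.P) : X.a < Y.a := by
  have h1 := X.hi
  have h2 := Y.lo
  have h3 : ((B X.P + 1 : ℤ) : ℝ) ≤ ((B Y.P : ℤ) : ℝ) := by exact_mod_cast B_lt h
  push_cast at h3
  linarith

lemma LV.lt12 {X Y : LV D} (h : Y.P < X.P + 6) : Y.a < X.a + 12 := by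
  have h1 := X.lo
  have h2 := Y.hi
  have h3 : ((B Y.P + 1 : ℤ) : ℝ) ≤ ((B X.P + 12 : ℤ) : ℝ) := by exact_mod_cast B_lt12 h
  push_cast at h3
  linarith

lemma S_neg_of {t : ℝ} (h0 : -12 < t) (h1 : t < 0) : S t < 0 := by
  have := S_pos (t := -t) (by linarith) (by linarith)
  rw [S_neg] at this
  linarith

lemma cross_pt (a h b k : ℝ) (hh : 0 < h) (hk : 0 < k) :
    cross (pt a h) (pt b k) = -(S (b - a) / (h * k)) := by
  unfold cross pt
  rw [S_sub]
  field_simp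
  ring

lemma C_shift (t : ℝ) (j : ℤ) : C (t + 12 * j) = (-1) ^ j * C t := by
  unfold C
  rw [← Real.cos_add_int_mul_pi]
  congr 1
  ring

lemma S_shift (t : ℝ) (j : ℤ) : S (t + 12 * j) = (-1) ^ j * S t := by
  unfold S
  rw [← Real.sin_add_int_mul_pi]
  congr 1
  ring

lemma neg_one_zpow_sq (j : ℤ) : ((-1 : ℝ) ^ j) * (-1) ^ j = 1 := by
  rw [← zpow_add₀ (by norm_num), ← two_mul, zpow_mul]
  norm_num

/-- line data of a good vertex at any lift of its cell -/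
lemma Drw.line_shift {v : V} (hv : D.good v) (P : ℤ) (hP : ∃ m : ℤ, P = D.κ v + 6 * m) :
    ∃ t x : ℝ, x ≠ 0 ∧ (B P : ℝ) < t ∧ t < (B P : ℝ) + 1 ∧ D.p v = (x * C t, -(x * S t)) := by
  obtain ⟨t, x, hx, h1, h2, h3⟩ := D.line hv
  obtain ⟨m, rfl⟩ := hP
  refine ⟨t + 12 * m, x * (-1) ^ m, ?_, ?_, ?_, ?_⟩
  · exact mul_ne_zero hx (zpow_ne_zero _ (by norm_num))
  · rw [B_add]; push_cast; linarith
  · rw [B_add]; push_cast; linarith
  · rw [h3, C_shift, S_shift]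
    have := neg_one_zpow_sq m
    ext
    · show x * C t = x * (-1) ^ m * ((-1) ^ m * C t)
      linear_combination (-(x * C t)) * this
    · show -(x * S t) = -(x * (-1) ^ m * ((-1) ^ m * S t))
      linear_combination (x * S t) * this

lemma pt_of_pos {t x : ℝ} (_ : 0 < x) : (x * C t, -(x * S t)) = pt t (1 / x) := by
  unfold pt
  ext
  · simp; ring
  · simp; ring

lemma pt_of_neg {t x : ℝ} (_ : x < 0) : (x * C t, -(x * S t)) = pt (t - 12) (1 / (-x)) := by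
  have e1 : C (t - 12) = -C t := by
    have := C_add_twelve (t - 12)
    rw [sub_add_cancel] at this
    linarith
  have e2 : S (t - 12) = -S t := by
    have := S_add_twelve (t - 12)
    rw [sub_add_cancel] at this
    linarith
  unfold pt
  rw [e1, e2]
  ext
  · simp; ring
  · simp; ring

/-- every good vertex has a lift -/
lemma exists_LV {v : V} (hv : D.good v) : ∃ X : LV D, X.v = v := by
  obtain ⟨t, x, hx, h1, h2, h3⟩ := D.line hv
  rcases lt_or_gt_of_ne hx with hx | hx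
  · refine ⟨⟨v, D.κ v + 6 * (-1), t - 12, 1 / (-x), by
      have : 0 < -x := by linarith
      positivity, by rw [h3, pt_of_neg hx], ?_, ?_, ⟨-1, rfl⟩⟩, rfl⟩
    · rw [B_add]; push_cast; linarith
    · rw [B_add]; push_cast; linarith
  · exact ⟨⟨v, D.κ v, t, 1 / x, by positivity, by rw [h3, pt_of_pos hx], h1, h2, ⟨0, by ring⟩⟩,
      rfl⟩

/-- lifts of children -/
lemma child_cases (X : LV D) {A : Fin 5} {c : V} (h : D.ch X.v A c) :
    (cross (D.p (D.par c)) (D.p c) < 0 ∧ ∃ Y : LV D, Y.v = c ∧ Y.P = X.P + ((A.val : ℤ) + 1)) ∨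
    (0 < cross (D.p (D.par c)) (D.p c) ∧
      ∃ Y : LV D, Y.v = c ∧ Y.P = X.P + ((A.val : ℤ) + 1) - 6) := by
  have hA : (A.val : ℤ) < 5 := by exact_mod_cast A.isLt
  have hA0 : (0 : ℤ) ≤ A.val := by positivity
  obtain ⟨m, hm⟩ := X.hκ
  obtain ⟨m', hm'⟩ := D.ch_κ h
  have hP : ∃ j : ℤ, X.P + ((A.val : ℤ) + 1) = D.κ c + 6 * j := ⟨m - m', by rw [hm, hm']; ring⟩
  obtain ⟨t, x, hx, h1, h2, h3⟩ := D.line_shift (D.ch_good h).2 _ hP
  have g1 : ((B X.P + 1 : ℤ) : ℝ) ≤ ((B (X.P + ((A.val : ℤ) + 1)) : ℤ) : ℝ) := by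
    exact_mod_cast B_lt (by omega)
  have g2 : ((B (X.P + ((A.val : ℤ) + 1)) + 1 : ℤ) : ℝ) ≤ ((B X.P + 12 : ℤ) : ℝ) := by
    exact_mod_cast B_lt12 (by omega)
  push_cast at g1 g2
  have l1 := X.lo
  have l2 := X.hi
  have hpv : D.p (D.par c) = pt X.a X.h := by rw [D.ch_par h, X.hp]
  rcases lt_or_gt_of_ne hx with hx | hx
  · right
    have hx' : 0 < -x := by linarith
    have hk : 0 < 1 / (-x) := by positivity
    rw [pt_of_neg hx] at h3
    constructor
    · rw [hpv, h3, cross_pt _ _ _ _ X.hpos hk]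
      have := S_neg_of (t := t - 12 - X.a) (by linarith) (by linarith)
      have h4 : 0 < X.h * (1 / (-x)) := mul_pos X.hpos hk
      have := div_neg_of_neg_of_pos this h4
      linarith
    · have e : X.P + ((A.val : ℤ) + 1) - 6 = X.P + ((A.val : ℤ) + 1) + 6 * (-1) := by ring
      refine ⟨⟨c, X.P + ((A.val : ℤ) + 1) - 6, t - 12, 1 / (-x), hk, h3, ?_, ?_, ?_⟩, rfl, rfl⟩
      · rw [e, B_add]; push_cast; linarith
      · rw [e, B_add]; push_cast; linarith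
      · exact ⟨m - m' - 1, by rw [hm, hm']; ring⟩
  · left
    have hk : 0 < 1 / x := by positivity
    rw [pt_of_pos hx] at h3
    constructor
    · rw [hpv, h3, cross_pt _ _ _ _ X.hpos hk]
      have := S_pos (t := t - X.a) (by linarith) (by linarith)
      have h4 : 0 < X.h * (1 / x) := mul_pos X.hpos hk
      have := div_pos this h4
      linarith
    · exact ⟨⟨c, X.P + ((A.val : ℤ) + 1), t, 1 / x, hk, h3, h1, h2, hP⟩, rfl, rfl⟩

/-- signed step -/
def stp (b : Bool) (A : Fin 5) : ℤ := if b then (A.val : ℤ) + 1 else (A.val : ℤ) + 1 - 6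

lemma child (X : LV D) {A : Fin 5} {c : V} (h : D.ch X.v A c) :
    ∃ Y : LV D, Y.v = c ∧ Y.P = X.P + stp (D.dir c) A := by
  rcases child_cases X h with ⟨h1, Y, h2, h3⟩ | ⟨h1, Y, h2, h3⟩
  · refine ⟨Y, h2, ?_⟩
    rw [h3, Drw.dir_true.2 h1]; simp [stp]
  · refine ⟨Y, h2, ?_⟩
    rw [h3, Drw.dir_false.2 h1.le]; simp [stp]; ring

lemma cross_ne {v : V} {A : Fin 5} {c : V} (h : D.ch v A c) :
    cross (D.p (D.par c)) (D.p c) ≠ 0 := by
  obtain ⟨X, rfl⟩ := exists_LV (D.ch_good h).1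
  rcases child_cases X h with ⟨h1, -⟩ | ⟨h1, -⟩
  · exact h1.ne
  · exact h1.ne'

/-- shift by a full turn -/
def LV.shift (X : LV D) : LV D where
  v := X.v
  P := X.P + 12
  a := X.a + 24
  h := X.h
  hpos := X.hpos
  hp := by
    have e1 : C (X.a + 24) = C X.a := by
      rw [show X.a + 24 = X.a + 12 + 12 by ring, C_add_twelve, C_add_twelve, neg_neg]
    have e2 : S (X.a + 24) = S X.a := by
      rw [show X.a + 24 = X.a + 12 + 12 by ring, S_add_twelve, S_add_twelve, neg_neg]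
    rw [X.hp]; unfold pt; rw [e1, e2]
  lo := by
    have := X.lo
    rw [show X.P + 12 = X.P + 6 * 2 by ring, B_add]; push_cast; linarith
  hi := by
    have := X.hi
    rw [show X.P + 12 = X.P + 6 * 2 by ring, B_add]; push_cast; linarith
  hκ := by
    obtain ⟨m, hm⟩ := X.hκ
    exact ⟨m + 2, by rw [hm]; ring⟩

/-- The arc between two lifted vertices. -/
noncomputable def arc (X Y : LV D) : AArc := ⟨X.a, Y.a, eH X.a X.h Y.a Y.h, eH_cont _ _ _ _⟩

/-- `X`, `Y` are lifts of the ends of the edge above `c`. -/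
def IsE (c : V) (X Y : LV D) : Prop :=
  D.isCh c ∧ ((X.v = D.par c ∧ Y.v = c) ∨ (X.v = c ∧ Y.v = D.par c))

lemma IsE.seg {c : V} {X Y : LV D} (h : IsE c X Y) :
    openSegment ℝ (D.p X.v) (D.p Y.v) = D.seg c := by
  rcases h.2 with ⟨h1, h2⟩ | ⟨h1, h2⟩
  · rw [h1, h2, Drw.seg]
  · rw [h1, h2, Drw.seg, openSegment_symm]

lemma arc_left {X Y : LV D} (h1 : X.a < Y.a) (h2 : Y.a < X.a + 12) :
    (arc X Y).f X.a = X.h := eH_left h1 h2

lemma arc_right {X Y : LV D} (h1 : X.a < Y.a) (h2 : Y.a < X.a + 12) :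
    (arc X Y).f Y.a = Y.h := eH_right h1 h2

lemma arc_mem {c : V} {X Y : LV D} (h : IsE c X Y) (h2 : Y.a < X.a + 12) {t : ℝ}
    (ht1 : X.a < t) (ht2 : t < Y.a) : pt t ((arc X Y).f t) ∈ D.seg c := by
  rw [← h.seg, X.hp, Y.hp]
  exact pt_mem X.hpos Y.hpos ht1 ht2 h2

lemma arc_pos {X Y : LV D} (h2 : Y.a < X.a + 12) {t : ℝ}
    (ht1 : X.a < t) (ht2 : t < Y.a) : 0 < (arc X Y).f t :=
  eH_pos X.hpos Y.hpos ht1 ht2 h2

lemma LV.h_ne {X Y : LV D} (ha : X.a = Y.a) (hv : X.v ≠ Y.v) : X.h ≠ Y.h := by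
  intro hh
  apply hv
  apply D.inj
  rw [X.hp, Y.hp, ha, hh]

lemma arc_free {X Y X' Y' : LV D} {c c' : V} (E : IsE c X Y) (E' : IsE c' X' Y')
    (hne : c ≠ c') (h1 : X.a < Y.a) (h2 : Y.a < X.a + 12) (h1' : X'.a < Y'.a)
    (h2' : Y'.a < X'.a + 12)
    (a1 : X'.a ≤ X.a → X.a ≤ Y'.a → D.p X.v ∉ D.seg c' ∧ X.v ≠ X'.v ∧ X.v ≠ Y'.v)
    (a2 : X'.a ≤ Y.a → Y.a ≤ Y'.a → D.p Y.v ∉ D.seg c' ∧ Y.v ≠ X'.v ∧ Y.v ≠ Y'.v)
    (a3 : X.a ≤ X'.a → X'.a ≤ Y.a → D.p X'.v ∉ D.seg c)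
    (a4 : X.a ≤ Y'.a → Y'.a ≤ Y.a → D.p Y'.v ∉ D.seg c) :
    Free (arc X Y) (arc X' Y') := by
  intro t t1 t2 t3 t4 heq
  change X.a ≤ t at t1
  change t ≤ Y.a at t2
  change X'.a ≤ t at t3
  change t ≤ Y'.a at t4
  -- the case of an endpoint of the first arc
  have key : ∀ Z : LV D, Z.a = t → (arc X Y).f t = Z.h → D.p Z.v ∉ D.seg c' → Z.v ≠ X'.v →
      Z.v ≠ Y'.v → False := by
    intro Z hZ hf hns hx hy
    rcases eq_or_lt_of_le t3 with t3 | t3
    · rw [← t3, arc_left h1' h2', t3, hf] at heq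
      exact LV.h_ne (hZ.trans t3.symm) hx heq
    rcases eq_or_lt_of_le t4 with t4 | t4
    · rw [t4, arc_right h1' h2', ← t4, hf] at heq
      exact LV.h_ne (hZ.trans t4) hy heq
    have := arc_mem E' h2' t3 t4
    rw [← heq, hf, ← hZ, ← Z.hp] at this
    exact hns this
  rcases eq_or_lt_of_le t1 with t1 | t1
  · subst t1
    obtain ⟨q1, q2, q3⟩ := a1 t3 t4
    exact key X rfl (arc_left h1 h2) q1 q2 q3
  rcases eq_or_lt_of_le t2 with t2 | t2
  · subst t2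
    obtain ⟨q1, q2, q3⟩ := a2 t3 t4
    exact key Y rfl (arc_right h1 h2) q1 q2 q3
  rcases eq_or_lt_of_le t3 with t3 | t3
  · subst t3
    rw [arc_left h1' h2'] at heq
    have := arc_mem E h2 t1 t2
    rw [heq, ← X'.hp] at this
    exact a3 t1.le t2.le this
  rcases eq_or_lt_of_le t4 with t4 | t4
  · subst t4
    rw [arc_right h1' h2'] at heq
    have := arc_mem E h2 t1 t2
    rw [heq, ← Y'.hp] at this
    exact a4 t1.le t2.le this
  have m1 := arc_mem E h2 t1 t2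
  have m2 := arc_mem E' h2' t3 t4
  rw [← heq] at m2
  exact Set.disjoint_left.1 (D.nc' E.1 E'.1 hne) m1 m2

/-- an endpoint of an adjacent edge is not inside -/
lemma not_mem_of_adj {x y z : ℝ × ℝ} (h : Disjoint (openSegment ℝ z y) (openSegment ℝ x y)) :
    z ∉ openSegment ℝ x y := by
  rintro ⟨a, b, ha, hb, hab, rfl⟩
  set z := a • x + b • y with hz
  have h' := Set.disjoint_left.1 h
  refine @h' ((1 / 2 : ℝ) • z + (1 / 2 : ℝ) • y)
    ⟨1 / 2, 1 / 2, by norm_num, by norm_num, by norm_num, rfl⟩ ?_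
  refine ⟨a / 2, b / 2 + 1 / 2, by positivity, by positivity, by linarith, ?_⟩
  rw [hz, smul_add, smul_smul, smul_smul, add_assoc, ← add_smul]
  congr 2 <;> ring

end Pool.Agent.H44.Pin
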