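import Pool.Agent.H44.Pin.Rules2

/-! The final configuration: seven clockwise spirals cannot be drawn. -/

namespace Pool.Agent.H44.Pin

variable {V : Type} {D : Drw V}

lemma big_left {X Y Z : LV D} (hP : X.P % 3 = 2) (hY : Y.P = X.P + 4) (hZ : Z.P = X.P + 3) :
    X.h < (arc X Y).f Z.a := by
  have b1 : B Y.P = B X.P + 10 := by rw [hY]; unfold B; omega
  have b2 : B Z.P = B X.P + 6 := by rw [hZ]; unfold B; omega
  have x1 := X.lo
  have x2 := X.hi
  have y1 := Y.lo
  have y2 := Y.hi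
  have z1 := Z.lo
  have z2 := Z.hi
  rw [b1] at y1 y2
  rw [b2] at z1 z2
  push_cast at y1 y2 z1 z2
  have s1 : 0 < S (Y.a - X.a) := S_pos (by linarith) (by linarith)
  have s2 : 0 < S (Z.a - X.a) := S_pos (by linarith) (by linarith)
  have s3 : S (Y.a - X.a) ≤ S (Y.a - Z.a) := by
    rw [← S_twelve_sub (Y.a - X.a)]
    exact S_le (by linarith) (by linarith) (by linarith)
  show X.h < eH X.a X.h Y.a Y.h Z.a
  unfold eH
  rw [lt_div_iff₀ s1]
  have := X.hpos
  have := Y.hpos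
  have e1 : X.h * S (Y.a - X.a) ≤ X.h * S (Y.a - Z.a) := by gcongr
  have e2 : 0 < Y.h * S (Z.a - X.a) := by positivity
  linarith

lemma big_right {X Y Z : LV D} (hP : X.P % 3 = 2) (hY : Y.P = X.P + 4) (hZ : Z.P = X.P + 1) :
    Y.h < (arc X Y).f Z.a := by
  have b1 : B Y.P = B X.P + 10 := by rw [hY]; unfold B; omega
  have b2 : B Z.P = B X.P + 4 := by rw [hZ]; unfold B; omega
  have x1 := X.lo
  have x2 := X.hi
  have y1 := Y.lo
  have y2 := Y.hi
  have z1 := Z.lo
  have z2 := Z.hi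
  rw [b1] at y1 y2
  rw [b2] at z1 z2
  push_cast at y1 y2 z1 z2
  have s1 : 0 < S (Y.a - X.a) := S_pos (by linarith) (by linarith)
  have s2 : 0 < S (Y.a - Z.a) := S_pos (by linarith) (by linarith)
  have s3 : S (Y.a - X.a) ≤ S (Z.a - X.a) := by
    rw [← S_twelve_sub (Y.a - X.a)]
    exact S_le (by linarith) (by linarith) (by linarith)
  show Y.h < eH X.a X.h Y.a Y.h Z.a
  unfold eH
  rw [lt_div_iff₀ s1]
  have := X.hpos
  have := Y.hpos
  have e1 : Y.h * S (Y.a - X.a) ≤ Y.h * S (Z.a - X.a) := by gcongr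
  have e2 : 0 < X.h * S (Y.a - Z.a) := by positivity
  linarith

end Pool.Agent.H44.Pin
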