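import Pool.Agent.H44.Pin.Final

/-! The final configuration, continued. -/

namespace Pool.Agent.H44.Pin

variable {V : Type} {D : Drw V}

/-- truncated first arc -/
noncomputable def barc (X Y : LV D) (t0 : ℝ) : AArc := ⟨t0, Y.a, (arc X Y).f, (arc X Y).cont⟩

lemma base_free {X Y Y' : LV D} {c c' : V} (E : IsE c X Y) (E' : IsE c' X Y') (hne : c ≠ c')
    (h2 : Y.a < X.a + 12) (h2' : Y'.a < X.a + 12)
    (n1 : D.p Y.v ∉ D.seg c') (n2 : D.p Y'.v ∉ D.seg c) (hd : Y.v ≠ Y'.v) {t : ℝ}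
    (t1 : X.a < t) (t2 : t ≤ Y.a) (t3 : t ≤ Y'.a) : (arc X Y).f t ≠ (arc X Y').f t := by
  rcases eq_or_lt_of_le t2 with t2 | t2
  · subst t2
    rw [arc_right t1 h2]
    rcases eq_or_lt_of_le t3 with t3 | t3
    · rw [t3, arc_right (t3 ▸ t1) h2']
      exact LV.h_ne t3 hd
    · exact (arc_ne_vertex E' h2' t1 t3 n1).symm
  rcases eq_or_lt_of_le t3 with t3 | t3
  · subst t3
    rw [arc_right t1 h2']
    exact arc_ne_vertex E h2 t1 t2 n2
  intro heq
  have m1 := arc_mem E h2 t1 t2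
  have m2 := arc_mem E' h2' t1 t3
  rw [← heq] at m2
  exact Set.disjoint_left.1 (D.nc' E.1 E'.1 hne) m1 m2

lemma barc_free {X Y : LV D} {t0 : ℝ} {e : AArc} (h0 : X.a ≤ t0) (h : Free (arc X Y) e) :
    Free (barc X Y t0) e :=
  fun t t1 t2 t3 t4 => h t (h0.trans t1) t2 t3 t4

variable {X0 : LV D} {A0 : Fin 5} {f : List (Fin 5) → Bool} {h : ℕ}

/-- A clockwise edge of copy `i`, not at the root. -/
def GE (S : Sev D X0 A0 f h) (i : Fin 7) (Y Z : LV D) : Prop :=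
  Y.a < Z.a ∧ Z.a < Y.a + 12 ∧ ∃ l : List (Fin 5), l ≠ [] ∧ l.length ≤ h ∧ IsE (S.X i l).v Y Z

lemma GE_mk (S : Sev D X0 A0 f h) (i : Fin 7) (l : List (Fin 5)) (A : Fin 5)
    (hl : l.length < h) (h1 : (S.X i l).P < (S.X i (l ++ [A])).P)
    (h2 : (S.X i (l ++ [A])).P < (S.X i l).P + 6) : GE S i (S.X i l) (S.X i (l ++ [A])) :=
  ⟨LV.lt h1, LV.lt12 h2, l ++ [A], by simp, by simp; omega, S.Es i l A hl⟩

/-- The arcs of copy `i` not at the root. -/
def Tset (S : Sev D X0 A0 f h) (i : Fin 7) (e : AArc) : Prop :=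
  ∃ Y Z : LV D, GE S i Y Z ∧ e = arc Y Z

lemma GE.T {S : Sev D X0 A0 f h} {i : Fin 7} {Y Z : LV D} (g : GE S i Y Z) :
    Tset S i (arc Y Z) := ⟨Y, Z, g, rfl⟩

lemma GE.shift {S : Sev D X0 A0 f h} {i : Fin 7} {Y Z : LV D} (g : GE S i Y Z) :
    GE S i Y.shift Z.shift := by
  obtain ⟨h1, h2, l, hl, hl', E⟩ := g
  refine ⟨?_, ?_, l, hl, hl', E⟩
  · show Y.a + 24 < Z.a + 24
    linarith
  · show Z.a + 24 < Y.a + 24 + 12
    linarith

lemma GE.free {S : Sev D X0 A0 f h} {i j : Fin 7} (hij : i ≠ j) {Y Z Y' Z' : LV D}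
    (g : GE S i Y Z) (g' : GE S j Y' Z') : Free (arc Y Z) (arc Y' Z') := by
  obtain ⟨h1, h2, l, hl, hl', E⟩ := g
  obtain ⟨h3, h4, m, hm, hm', E'⟩ := g'
  exact S.free hij hl' hm' (Or.inl hl) E E' h1 h2 h3 h4

lemma Rch_arc {S : Sev D X0 A0 f h} {i : Fin 7} {b : AArc} {n : ℕ} {Y Z W : LV D}
    (hr : Rch (Tset S i) b n (arc Y Z)) (g : GE S i Y Z) (g' : GE S i Z W) :
    Rch (Tset S i) b (n + 1) (arc Z W) :=
  ⟨g'.T, arc Y Z, hr, g.1.le, rfl, by
    show (arc Y Z).f Z.a = (arc Z W).f Z.a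
    rw [arc_right g.1 g.2.1, arc_left g'.1 g'.2.1]⟩

theorem final {M : ℕ} {f : List (Fin 5) → Bool} {v : V} (H : Hom D M 8 f v) (hv : D.good v)
    (hM : M0 7 ≤ M) (hκ : D.κ v % 3 = 0)
    (w1 : f [0] = true) (w2 : f [0, 0] = true) (w6 : f [0, 0, 3] = true)
    (w4 : f [0, 2] = true) (w5 : f [0, 2, 0] = true) (w9 : f [0, 2, 0, 3] = true)
    (w7 : f [0, 2, 0, 1] = true) (w8 : f [0, 2, 0, 1, 0] = true)
    (w12 : f [0, 2, 0, 1, 0, 3] = true) (w10 : f [0, 2, 0, 1, 0, 1] = true)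
    (w11 : f [0, 2, 0, 1, 0, 1, 0] = true) (w15 : f [0, 2, 0, 1, 0, 1, 0, 3] = true) :
    False := by
  obtain ⟨X0, rfl⟩ := exists_LV hv
  have hP0 : X0.P % 3 = 0 := by
    obtain ⟨m, hm⟩ := X0.hκ
    omega
  obtain ⟨S⟩ := exists_Sev X0 0 H hM
  -- positions
  have p1 : ∀ i, (S.X i []).P = X0.P + 1 := by
    intro i; rw [S.P i [] (by simp)]; simp [pos, stp, w1]
  have p2 : ∀ i, (S.X i [0]).P = X0.P + 2 := by
    intro i; rw [S.P i [0] (by simp)]; simp [pos, stp, w1, w2]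
  have p6 : ∀ i, (S.X i [0, 3]).P = X0.P + 6 := by
    intro i; rw [S.P i [0, 3] (by simp)]; simp [pos, stp, w1, w2, w6]
  have p4 : ∀ i, (S.X i [2]).P = X0.P + 4 := by
    intro i; rw [S.P i [2] (by simp)]; simp [pos, stp, w1, w4]
  have p5 : ∀ i, (S.X i [2, 0]).P = X0.P + 5 := by
    intro i; rw [S.P i [2, 0] (by simp)]; simp [pos, stp, w1, w4, w5]
  have p9 : ∀ i, (S.X i [2, 0, 3]).P = X0.P + 9 := by
    intro i; rw [S.P i [2, 0, 3] (by simp)]; simp [pos, stp, w1, w4, w5, w9]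
  have p7 : ∀ i, (S.X i [2, 0, 1]).P = X0.P + 7 := by
    intro i; rw [S.P i [2, 0, 1] (by simp)]; simp [pos, stp, w1, w4, w5, w7]
  have p8 : ∀ i, (S.X i [2, 0, 1, 0]).P = X0.P + 8 := by
    intro i; rw [S.P i [2, 0, 1, 0] (by simp)]; simp [pos, stp, w1, w4, w5, w7, w8]
  have p12 : ∀ i, (S.X i [2, 0, 1, 0, 3]).P = X0.P + 12 := by
    intro i; rw [S.P i [2, 0, 1, 0, 3] (by simp)]; simp [pos, stp, w1, w4, w5, w7, w8, w12]
  have p10 : ∀ i, (S.X i [2, 0, 1, 0, 1]).P = X0.P + 10 := by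
    intro i; rw [S.P i [2, 0, 1, 0, 1] (by simp)]; simp [pos, stp, w1, w4, w5, w7, w8, w10]
  have p11 : ∀ i, (S.X i [2, 0, 1, 0, 1, 0]).P = X0.P + 11 := by
    intro i; rw [S.P i [2, 0, 1, 0, 1, 0] (by simp)]
    simp [pos, stp, w1, w4, w5, w7, w8, w10, w11]
  have p15 : ∀ i, (S.X i [2, 0, 1, 0, 1, 0, 3]).P = X0.P + 15 := by
    intro i; rw [S.P i [2, 0, 1, 0, 1, 0, 3] (by simp)]
    simp [pos, stp, w1, w4, w5, w7, w8, w10, w11, w15]
  -- edges
  have g12 : ∀ i, GE S i (S.X i []) (S.X i [0]) := fun i =>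
    GE_mk S i [] 0 (by simp) (by simp [p1, p2]) (by simp [p1, p2] <;> omega)
  have g26 : ∀ i, GE S i (S.X i [0]) (S.X i [0, 3]) := fun i =>
    GE_mk S i [0] 3 (by simp) (by simp [p2, p6]) (by simp [p2, p6] <;> omega)
  have g14 : ∀ i, GE S i (S.X i []) (S.X i [2]) := fun i =>
    GE_mk S i [] 2 (by simp) (by simp [p1, p4]) (by simp [p1, p4] <;> omega)
  have g45 : ∀ i, GE S i (S.X i [2]) (S.X i [2, 0]) := fun i =>
    GE_mk S i [2] 0 (by simp) (by simp [p4, p5]) (by simp [p4, p5] <;> omega)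
  have g59 : ∀ i, GE S i (S.X i [2, 0]) (S.X i [2, 0, 3]) := fun i =>
    GE_mk S i [2, 0] 3 (by simp) (by simp [p5, p9]) (by simp [p5, p9] <;> omega)
  have g57 : ∀ i, GE S i (S.X i [2, 0]) (S.X i [2, 0, 1]) := fun i =>
    GE_mk S i [2, 0] 1 (by simp) (by simp [p5, p7]) (by simp [p5, p7] <;> omega)
  have g78 : ∀ i, GE S i (S.X i [2, 0, 1]) (S.X i [2, 0, 1, 0]) := fun i =>
    GE_mk S i [2, 0, 1] 0 (by simp) (by simp [p7, p8]) (by simp [p7, p8] <;> omega)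
  have g812 : ∀ i, GE S i (S.X i [2, 0, 1, 0]) (S.X i [2, 0, 1, 0, 3]) := fun i =>
    GE_mk S i [2, 0, 1, 0] 3 (by simp) (by simp [p8, p12]) (by simp [p8, p12] <;> omega)
  have g810 : ∀ i, GE S i (S.X i [2, 0, 1, 0]) (S.X i [2, 0, 1, 0, 1]) := fun i =>
    GE_mk S i [2, 0, 1, 0] 1 (by simp) (by simp [p8, p10]) (by simp [p8, p10] <;> omega)
  have g1011 : ∀ i, GE S i (S.X i [2, 0, 1, 0, 1]) (S.X i [2, 0, 1, 0, 1, 0]) := fun i =>
    GE_mk S i [2, 0, 1, 0, 1] 0 (by simp) (by simp [p10, p11]) (by simp [p10, p11] <;> omega)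
  have g1115 : ∀ i, GE S i (S.X i [2, 0, 1, 0, 1, 0]) (S.X i [2, 0, 1, 0, 1, 0, 3]) := fun i =>
    GE_mk S i [2, 0, 1, 0, 1, 0] 3 (by simp) (by simp [p11, p15]) (by simp [p11, p15] <;> omega)
  -- first arcs
  have o1 : ∀ i, X0.a < (S.X i []).a := fun i => LV.lt (by rw [p1]; omega)
  have o1' : ∀ i, (S.X i []).a < X0.a + 12 := fun i => LV.lt12 (by rw [p1]; omega)
  set t0 : ℝ := (B X0.P : ℝ) + 1 with ht0
  have ht0l : X0.a < t0 := X0.hi
  have ht0u : ∀ i, t0 ≤ (S.X i []).a := by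
    intro i
    have h1 := (S.X i []).lo
    have h3 : ((B X0.P + 1 : ℤ) : ℝ) ≤ ((B (S.X i []).P : ℤ) : ℝ) := by
      exact_mod_cast B_lt (by rw [p1]; omega)
    push_cast at h3
    linarith
  let b : Fin 7 → AArc := fun i => barc X0 (S.X i []) t0
  have bfree : ∀ i j, i ≠ j → ∀ t, X0.a < t → t ≤ (S.X i []).a → t ≤ (S.X j []).a →
      (arc X0 (S.X i [])).f t ≠ (arc X0 (S.X j [])).f t := by
    intro i j hij t t1 t2 t3
    have s1 := S.sep i j hij [] [] (by simp) (by simp)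
    have s2 := S.sep j i hij.symm [] [] (by simp) (by simp)
    exact base_free (S.E0 i) (S.E0 j) s1.1 (o1' i) (o1' j) s1.2 s2.2 s1.1 t1 t2 t3
  have hF : ∀ i j, i ≠ j → ∀ e e', (e = b i ∨ Tset S i e) → (e' = b j ∨ Tset S j e') →
      Free e e' := by
    intro i j hij e e' he he'
    rcases he with rfl | ⟨Y, Z, g, rfl⟩ <;> rcases he' with rfl | ⟨Y', Z', g', rfl⟩
    · intro t t1 t2 t3 t4
      exact bfree i j hij t (lt_of_lt_of_le ht0l t1) t2 t4
    · obtain ⟨h3, h4, m, hm, hm', E'⟩ := g'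
      exact barc_free ht0l.le (S.free hij (by simp) hm' (Or.inr hm) (S.E0 i) E' (o1 i) (o1' i)
        h3 h4)
    · obtain ⟨h3, h4, m, hm, hm', E'⟩ := g
      exact (barc_free ht0l.le (S.free hij.symm (by simp) hm' (Or.inr hm) (S.E0 j) E' (o1 j)
        (o1' j) h3 h4)).symm
    · exact GE.free hij g g'
  let g : Fin 7 → ℝ := fun i => (arc X0 (S.X i [])).f t0
  have ginj : Function.Injective g := by
    intro i j hij
    by_contra hne
    exact bfree i j hne t0 ht0l (ht0u i) (ht0u j) hij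
  let s : Fin 7 → Fin 7 := Tuple.sort g
  have hs : StrictMono (g ∘ s) :=
    (Tuple.monotone_sort g).strictMono_of_injective (ginj.comp (Tuple.sort g).injective)
  have ord : ∀ i j, g i < g j → ∀ n m e e', Rch (Tset S i) (b i) n e →
      Rch (Tset S j) (b j) m e' → ∀ t, e.l ≤ t → t ≤ e.u → e'.l ≤ t → t ≤ e'.u →
      e.f t < e'.f t := by
    intro i j hij n m e e' he he'
    have hne : i ≠ j := fun h => by rw [h] at hij; exact lt_irrefl _ hij
    exact Rch_order (t0 := t0) (hF i j hne) hij rfl rfl (ht0u i) (ht0u j) (n + m) n m rfl e e'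
      he he'
  -- reachability
  have r0 : ∀ i, Rch (Tset S i) (b i) 0 (b i) := fun i => rfl
  have r12 : ∀ i, Rch (Tset S i) (b i) 1 (arc (S.X i []) (S.X i [0])) := fun i =>
    ⟨(g12 i).T, b i, r0 i, ht0u i, rfl, by
      show (arc X0 (S.X i [])).f (S.X i []).a = (arc (S.X i []) (S.X i [0])).f (S.X i []).a
      rw [arc_right (o1 i) (o1' i), arc_left (g12 i).1 (g12 i).2.1]⟩
  have r14 : ∀ i, Rch (Tset S i) (b i) 1 (arc (S.X i []) (S.X i [2])) := fun i =>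
    ⟨(g14 i).T, b i, r0 i, ht0u i, rfl, by
      show (arc X0 (S.X i [])).f (S.X i []).a = (arc (S.X i []) (S.X i [2])).f (S.X i []).a
      rw [arc_right (o1 i) (o1' i), arc_left (g14 i).1 (g14 i).2.1]⟩
  have r26 := fun i => Rch_arc (r12 i) (g12 i) (g26 i)
  have r45 := fun i => Rch_arc (r14 i) (g14 i) (g45 i)
  have r59 := fun i => Rch_arc (r45 i) (g45 i) (g59 i)
  have r57 := fun i => Rch_arc (r45 i) (g45 i) (g57 i)
  have r78 := fun i => Rch_arc (r57 i) (g57 i) (g78 i)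
  have r812 := fun i => Rch_arc (r78 i) (g78 i) (g812 i)
  have r810 := fun i => Rch_arc (r78 i) (g78 i) (g810 i)
  have r1011 := fun i => Rch_arc (r810 i) (g810 i) (g1011 i)
  have r1115 := fun i => Rch_arc (r1011 i) (g1011 i) (g1115 i)
  -- the arc passing the shifted root
  set W : AArc := arc (S.X (s 3) [2, 0, 1, 0, 1, 0]) (S.X (s 3) [2, 0, 1, 0, 1, 0, 3]) with hW
  have q1 : (S.X (s 3) [2, 0, 1, 0, 1, 0]).a < X0.shift.a := LV.lt (by
    rw [p11]; show _ < X0.P + 12; omega)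
  have q2 : X0.shift.a < (S.X (s 3) [2, 0, 1, 0, 1, 0, 3]).a := LV.lt (by
    rw [p15]; show X0.P + 12 < _; omega)
  have hWne : W.f X0.shift.a ≠ X0.h := by
    obtain ⟨h1, h2, l, hl, hl', E⟩ := g1115 (s 3)
    exact arc_ne_vertex (Z := X0.shift) (S.Es (s 3) [2, 0, 1, 0, 1, 0] 3 (by simp)) h2 q1 q2
      (S.vs (s 3) _ (by simp))
  have hsne : ∀ {i j : Fin 7}, i < j → s i ≠ s j := by
    intro i j hij he
    exact hij.ne ((Tuple.sort g).injective he)
  -- shifted first arc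
  have k1 : ∀ i, X0.shift.a < (S.X i []).shift.a := by
    intro i; show X0.a + 24 < (S.X i []).a + 24; linarith [o1 i]
  have k2 : ∀ i, (S.X i []).shift.a < X0.shift.a + 12 := by
    intro i; show (S.X i []).a + 24 < X0.a + 24 + 12; linarith [o1' i]
  have F1 : ∀ i, i ≠ s 3 → Free (arc X0.shift (S.X i []).shift) W := by
    intro i hi
    obtain ⟨h3, h4, m, hm, hm', E'⟩ := g1115 (s 3)
    exact S.free hi (by simp) hm' (Or.inr hm) (Y := X0.shift) (Z := (S.X i []).shift) (S.E0 i) E'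
      (k1 i) (k2 i) h3 h4
  have F2 : ∀ i, i ≠ s 3 → Free (arc (S.X i []).shift (S.X i [0]).shift) W :=
    fun i hi => GE.free hi (g12 i).shift (g1115 (s 3))
  have F3 : ∀ i, i ≠ s 3 → Free (arc (S.X i [0]).shift (S.X i [0, 3]).shift) W :=
    fun i hi => GE.free hi (g26 i).shift (g1115 (s 3))
  have u1 : ∀ i, (S.X i []).shift.a < (S.X (s 3) [2, 0, 1, 0, 1, 0, 3]).a := fun i => LV.lt (by
    rw [p15]; show (S.X i []).P + 12 < _; rw [p1]; omega)
  have u2 : ∀ i, (S.X i [0]).shift.a < (S.X (s 3) [2, 0, 1, 0, 1, 0, 3]).a := fun i => LV.lt (by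
    rw [p15]; show (S.X i [0]).P + 12 < _; rw [p2]; omega)
  have u3 : ∀ i, (S.X (s 3) [2, 0, 1, 0, 1, 0, 3]).a < (S.X i [0, 3]).shift.a := fun i =>
    LV.lt (by rw [p15]; show _ < (S.X i [0, 3]).P + 12; rw [p6]; omega)
  have g12' : ∀ i, (S.X i []).shift.a < (S.X i [0]).shift.a := fun i => (g12 i).shift.1
  rcases lt_or_gt_of_ne hWne with hc | hc
  · -- the spiral passes below the shifted root
    have hi : s 0 ≠ s 3 := hsne (by decide)
    have c1 : W.f (S.X (s 0) []).shift.a < (S.X (s 0) []).h := by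
      have := (F1 _ hi).gt (x := X0.shift.a) (y := (S.X (s 0) []).shift.a)
        ⟨le_rfl, (k1 _).le, q1.le, q2.le⟩ ⟨(k1 _).le, le_rfl, (q1.trans (k1 _)).le, (u1 _).le⟩
        (by rw [arc_left (k1 _) (k2 _)]; exact hc)
      rw [arc_right (k1 _) (k2 _)] at this
      exact this
    have c2 : W.f (S.X (s 0) [0]).shift.a < (S.X (s 0) [0]).h := by
      have := (F2 _ hi).gt (x := (S.X (s 0) []).shift.a) (y := (S.X (s 0) [0]).shift.a)
        ⟨le_rfl, (g12' _).le, (q1.trans (k1 _)).le, (u1 _).le⟩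
        ⟨(g12' _).le, le_rfl, ((q1.trans (k1 _)).trans (g12' _)).le, (u2 _).le⟩
        (by rw [arc_left (g12' _) (g12 _).shift.2.1]; exact c1)
      rw [arc_right (g12' _) (g12 _).shift.2.1] at this
      exact this
    have z1 : (S.X (s 3) [2, 0, 1, 0, 1, 0]).h < (S.X (s 0) [0]).h :=
      lt_trans (big_left (Z := (S.X (s 0) [0]).shift) (by rw [p11]; omega)
        (by rw [p11, p15]; ring) (by rw [p11]; show (S.X (s 0) [0]).P + 12 = _; rw [p2]; ring)) c2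
    have z2 : (S.X (s 0) [0]).h < (S.X (s 1) [2, 0]).h := by
      have h1 := ord (s 0) (s 1) (hs (by decide)) _ _ _ _ (r26 _) (r45 _) (S.X (s 1) [2, 0]).a
        (LV.lt (by rw [p2, p5]; omega) : (S.X (s 0) [0]).a < (S.X (s 1) [2, 0]).a).le
        (LV.lt (by rw [p5, p6]; omega) : (S.X (s 1) [2, 0]).a < (S.X (s 0) [0, 3]).a).le
        (g45 _).1.le le_rfl
      rw [arc_right (g45 _).1 (g45 _).2.1] at h1
      exact lt_trans (big_left (by rw [p2]; omega) (by rw [p2, p6]; ring)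
        (by rw [p2, p5]; ring)) h1
    have z3 : (S.X (s 1) [2, 0]).h < (S.X (s 2) [2, 0, 1, 0]).h := by
      have h1 := ord (s 1) (s 2) (hs (by decide)) _ _ _ _ (r59 _) (r78 _)
        (S.X (s 2) [2, 0, 1, 0]).a
        (LV.lt (by rw [p5, p8]; omega) : (S.X (s 1) [2, 0]).a < (S.X (s 2) [2, 0, 1, 0]).a).le
        (LV.lt (by rw [p8, p9]; omega) :
          (S.X (s 2) [2, 0, 1, 0]).a < (S.X (s 1) [2, 0, 3]).a).le
        (g78 _).1.le le_rfl
      rw [arc_right (g78 _).1 (g78 _).2.1] at h1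
      exact lt_trans (big_left (by rw [p5]; omega) (by rw [p5, p9]; ring)
        (by rw [p5, p8]; ring)) h1
    have z4 : (S.X (s 2) [2, 0, 1, 0]).h < (S.X (s 3) [2, 0, 1, 0, 1, 0]).h := by
      have h1 := ord (s 2) (s 3) (hs (by decide)) _ _ _ _ (r812 _) (r1011 _)
        (S.X (s 3) [2, 0, 1, 0, 1, 0]).a
        (LV.lt (by rw [p8, p11]; omega) :
          (S.X (s 2) [2, 0, 1, 0]).a < (S.X (s 3) [2, 0, 1, 0, 1, 0]).a).le
        (LV.lt (by rw [p11, p12]; omega) :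
          (S.X (s 3) [2, 0, 1, 0, 1, 0]).a < (S.X (s 2) [2, 0, 1, 0, 3]).a).le
        (g1011 _).1.le le_rfl
      rw [arc_right (g1011 _).1 (g1011 _).2.1] at h1
      exact lt_trans (big_left (by rw [p8]; omega) (by rw [p8, p12]; ring)
        (by rw [p8, p11]; ring)) h1
    linarith
  · -- the spiral passes above the shifted root
    have hi : s 6 ≠ s 3 := (hsne (i := 3) (j := 6) (by decide)).symm
    have c1 : (S.X (s 6) []).h < W.f (S.X (s 6) []).shift.a := by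
      have := (F1 _ hi).lt (x := X0.shift.a) (y := (S.X (s 6) []).shift.a)
        ⟨le_rfl, (k1 _).le, q1.le, q2.le⟩ ⟨(k1 _).le, le_rfl, (q1.trans (k1 _)).le, (u1 _).le⟩
        (by rw [arc_left (k1 _) (k2 _)]; exact hc)
      rw [arc_right (k1 _) (k2 _)] at this
      exact this
    have c2 : (S.X (s 6) [0]).h < W.f (S.X (s 6) [0]).shift.a := by
      have := (F2 _ hi).lt (x := (S.X (s 6) []).shift.a) (y := (S.X (s 6) [0]).shift.a)
        ⟨le_rfl, (g12' _).le, (q1.trans (k1 _)).le, (u1 _).le⟩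
        ⟨(g12' _).le, le_rfl, ((q1.trans (k1 _)).trans (g12' _)).le, (u2 _).le⟩
        (by rw [arc_left (g12' _) (g12 _).shift.2.1]; exact c1)
      rw [arc_right (g12' _) (g12 _).shift.2.1] at this
      exact this
    have c3 : (arc (S.X (s 6) [0]).shift (S.X (s 6) [0, 3]).shift).f
        (S.X (s 3) [2, 0, 1, 0, 1, 0, 3]).a < (S.X (s 3) [2, 0, 1, 0, 1, 0, 3]).h := by
      have := (F3 _ hi).lt (x := (S.X (s 6) [0]).shift.a)
        (y := (S.X (s 3) [2, 0, 1, 0, 1, 0, 3]).a)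
        ⟨le_rfl, (g26 _).shift.1.le, ((q1.trans (k1 _)).trans (g12' _)).le, (u2 _).le⟩
        ⟨(u2 _).le, (u3 _).le, (g1115 _).1.le, le_rfl⟩
        (by rw [arc_left (g26 _).shift.1 (g26 _).shift.2.1]; exact c2)
      rw [hW, arc_right (g1115 _).1 (g1115 _).2.1] at this
      exact this
    have z1 : (S.X (s 6) [0, 3]).h < (S.X (s 3) [2, 0, 1, 0, 1, 0, 3]).h :=
      lt_trans (big_right (X := (S.X (s 6) [0]).shift) (Y := (S.X (s 6) [0, 3]).shift)
        (by show ((S.X (s 6) [0]).P + 12) % 3 = 2; rw [p2]; omega)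
        (by show (S.X (s 6) [0, 3]).P + 12 = (S.X (s 6) [0]).P + 12 + 4; rw [p2, p6]; ring)
        (by show _ = (S.X (s 6) [0]).P + 12 + 1; rw [p2, p15]; ring)) c3
    have z2 : (S.X (s 3) [2, 0, 1, 0, 1, 0, 3]).h < (S.X (s 4) [2, 0, 1, 0, 3]).h := by
      have h1 := ord (s 3) (s 4) (hs (by decide)) _ _ _ _ (r1115 _) (r812 _)
        (S.X (s 4) [2, 0, 1, 0, 3]).a
        (LV.lt (by rw [p11, p12]; omega) :
          (S.X (s 3) [2, 0, 1, 0, 1, 0]).a < (S.X (s 4) [2, 0, 1, 0, 3]).a).le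
        (LV.lt (by rw [p15, p12]; omega) :
          (S.X (s 4) [2, 0, 1, 0, 3]).a < (S.X (s 3) [2, 0, 1, 0, 1, 0, 3]).a).le
        (g812 _).1.le le_rfl
      rw [arc_right (g812 _).1 (g812 _).2.1] at h1
      exact lt_trans (big_right (by rw [p11]; omega) (by rw [p11, p15]; ring)
        (by rw [p11, p12]; ring)) h1
    have z3 : (S.X (s 4) [2, 0, 1, 0, 3]).h < (S.X (s 5) [2, 0, 3]).h := by
      have h1 := ord (s 4) (s 5) (hs (by decide)) _ _ _ _ (r812 _) (r59 _)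
        (S.X (s 5) [2, 0, 3]).a
        (LV.lt (by rw [p8, p9]; omega) :
          (S.X (s 4) [2, 0, 1, 0]).a < (S.X (s 5) [2, 0, 3]).a).le
        (LV.lt (by rw [p9, p12]; omega) :
          (S.X (s 5) [2, 0, 3]).a < (S.X (s 4) [2, 0, 1, 0, 3]).a).le
        (g59 _).1.le le_rfl
      rw [arc_right (g59 _).1 (g59 _).2.1] at h1
      exact lt_trans (big_right (by rw [p8]; omega) (by rw [p8, p12]; ring)
        (by rw [p8, p9]; ring)) h1
    have z4 : (S.X (s 5) [2, 0, 3]).h < (S.X (s 6) [0, 3]).h := by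
      have h1 := ord (s 5) (s 6) (hs (by decide)) _ _ _ _ (r59 _) (r26 _)
        (S.X (s 6) [0, 3]).a
        (LV.lt (by rw [p5, p6]; omega) : (S.X (s 5) [2, 0]).a < (S.X (s 6) [0, 3]).a).le
        (LV.lt (by rw [p6, p9]; omega) : (S.X (s 6) [0, 3]).a < (S.X (s 5) [2, 0, 3]).a).le
        (g26 _).1.le le_rfl
      rw [arc_right (g26 _).1 (g26 _).2.1] at h1
      exact lt_trans (big_right (by rw [p5]; omega) (by rw [p5, p9]; ring)
        (by rw [p5, p6]; ring)) h1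
    linarith

end Pool.Agent.H44.Pin
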