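import Mathlib

/-! Rays through the origin: heights (inverse distances) of straight segments as functions of
the angle, measured clockwise in units of `π / 12`. -/

namespace Pool.Agent.H44.Pin

open Real

/-- Sine, angles in units of `π / 12`. -/
noncomputable def S (t : ℝ) : ℝ := Real.sin (t * (π / 12))

/-- Cosine, angles in units of `π / 12`. -/
noncomputable def C (t : ℝ) : ℝ := Real.cos (t * (π / 12))

lemma S_pos {t : ℝ} (h0 : 0 < t) (h1 : t < 12) : 0 < S t := by
  apply Real.sin_pos_of_pos_of_lt_pi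
  · positivity
  · nlinarith [Real.pi_pos]

lemma S_zero : S 0 = 0 := by simp [S]

lemma S_neg (t : ℝ) : S (-t) = -S t := by
  unfold S; rw [← Real.sin_neg]; congr 1; ring

lemma C_neg (t : ℝ) : C (-t) = C t := by
  unfold C; rw [← Real.cos_neg]; congr 1; ring

lemma S_add_twelve (t : ℝ) : S (t + 12) = -S t := by
  unfold S; rw [← Real.sin_add_pi]; congr 1; ring

lemma C_add_twelve (t : ℝ) : C (t + 12) = -C t := by
  unfold C; rw [← Real.cos_add_pi]; congr 1; ring

lemma SC_sq (t : ℝ) : S t ^ 2 + C t ^ 2 = 1 := Real.sin_sq_add_cos_sq _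

lemma S_sub (a b : ℝ) : S (a - b) = S a * C b - C a * S b := by
  unfold S C; rw [← Real.sin_sub]; congr 1; ring

lemma C_sub (a b : ℝ) : C (a - b) = C a * C b + S a * S b := by
  unfold S C; rw [← Real.cos_sub]; congr 1; ring

lemma S_cont : Continuous S := by unfold S; fun_prop

lemma S_le {x y : ℝ} (hx : -6 ≤ x) (hy : y ≤ 6) (h : x ≤ y) : S x ≤ S y := by
  apply Real.sin_le_sin_of_le_of_le_pi_div_two
  · nlinarith [Real.pi_pos]
  · nlinarith [Real.pi_pos]
  · nlinarith [Real.pi_pos]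

lemma S_twelve_sub (t : ℝ) : S (12 - t) = S t := by
  unfold S; rw [← Real.sin_pi_sub]; congr 1; ring

/-- Height at angle `t` of the segment joining the points of angle `a`, height `h` and of
angle `b`, height `k`. -/
noncomputable def eH (a h b k t : ℝ) : ℝ := (h * S (b - t) + k * S (t - a)) / S (b - a)

lemma eH_cont (a h b k : ℝ) : Continuous (eH a h b k) := by
  unfold eH
  have h1 : Continuous fun t => S (b - t) := S_cont.comp (by fun_prop)
  have h2 : Continuous fun t => S (t - a) := S_cont.comp (by fun_prop)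
  fun_prop

lemma eH_left {a h b k : ℝ} (h1 : a < b) (h2 : b < a + 12) : eH a h b k a = h := by
  have := S_pos (sub_pos.2 h1) (by linarith)
  unfold eH
  rw [sub_self, S_zero]
  field_simp
  ring

lemma eH_right {a h b k : ℝ} (h1 : a < b) (h2 : b < a + 12) : eH a h b k b = k := by
  have := S_pos (sub_pos.2 h1) (by linarith)
  unfold eH
  rw [sub_self, S_zero]
  field_simp
  ring

lemma num_pos {a h b k t : ℝ} (hh : 0 < h) (hk : 0 < k) (h1 : a < t) (h2 : t < b)
    (h3 : b < a + 12) : 0 < h * S (b - t) + k * S (t - a) := by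
  have e1 := S_pos (sub_pos.2 h1) (by linarith)
  have e2 := S_pos (sub_pos.2 h2) (by linarith)
  positivity

lemma eH_pos {a h b k t : ℝ} (hh : 0 < h) (hk : 0 < k) (h1 : a < t) (h2 : t < b)
    (h3 : b < a + 12) : 0 < eH a h b k t := by
  have e3 := S_pos (sub_pos.2 (h1.trans h2)) (by linarith)
  exact div_pos (num_pos hh hk h1 h2 h3) e3

/-- The point of angle `a` and height `h`. -/
noncomputable def pt (a h : ℝ) : ℝ × ℝ := (C a / h, -(S a / h))

lemma pt_inj {a h k : ℝ} (hh : 0 < h) (hk : 0 < k) (e : pt a h = pt a k) : h = k := by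
  have e1 : C a / h = C a / k := congrArg Prod.fst e
  have e2 : S a / h = S a / k := by
    have := congrArg Prod.snd e
    simp only [pt, neg_inj] at this
    exact this
  rw [div_eq_div_iff hh.ne' hk.ne'] at e1 e2
  have e3 := SC_sq a
  have : (S a ^ 2 + C a ^ 2) * k = (S a ^ 2 + C a ^ 2) * h := by
    linear_combination (S a) * e2 + (C a) * e1
  rw [e3] at this
  linarith

lemma pt_mem {a h b k t : ℝ} (hh : 0 < h) (hk : 0 < k) (h1 : a < t) (h2 : t < b)
    (h3 : b < a + 12) : pt t (eH a h b k t) ∈ openSegment ℝ (pt a h) (pt b k) := by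
  have e0 := S_pos (sub_pos.2 (h1.trans h2)) (by linarith)
  have e1 := S_pos (sub_pos.2 h1) (by linarith)
  have e2 := S_pos (sub_pos.2 h2) (by linarith)
  have eN := num_pos hh hk h1 h2 h3
  refine ⟨h * S (b - t) / (h * S (b - t) + k * S (t - a)),
    k * S (t - a) / (h * S (b - t) + k * S (t - a)), by positivity, by positivity, ?_, ?_⟩
  · field_simp
  · have i1 : S (b - a) * C t = S (b - t) * C a + S (t - a) * C b := by
      simp only [S_sub]; ring
    have i2 : S (b - a) * S t = S (b - t) * S a + S (t - a) * S b := by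
      simp only [S_sub]; ring
    unfold eH pt
    ext
    · simp only [Prod.fst_add, Prod.smul_fst, smul_eq_mul]
      rw [div_div_eq_mul_div, mul_comm (C t), i1]
      field_simp
    · simp only [Prod.snd_add, Prod.smul_snd, smul_eq_mul]
      rw [div_div_eq_mul_div, mul_comm (S t), i2]
      field_simp
      ring

/-- A function on an interval. -/
structure AArc where
  l : ℝ
  u : ℝ
  f : ℝ → ℝ
  cont : Continuous f

/-- The two functions differ at every common point of the two intervals. -/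
def Free (e e' : AArc) : Prop :=
  ∀ t, e.l ≤ t → t ≤ e.u → e'.l ≤ t → t ≤ e'.u → e.f t ≠ e'.f t

lemma Free.symm {e e' : AArc} (h : Free e e') : Free e' e :=
  fun t h1 h2 h3 h4 => (h t h3 h4 h1 h2).symm

/-- Order reversal. -/
def AArc.neg (e : AArc) : AArc := ⟨e.l, e.u, fun t => -e.f t, e.cont.neg⟩

lemma Free.neg {e e' : AArc} (h : Free e e') : Free e.neg e'.neg :=
  fun t h1 h2 h3 h4 h5 => h t h1 h2 h3 h4 (neg_injective h5)

lemma Free.lt {e e' : AArc} (h : Free e e') {x y : ℝ}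
    (hx : e.l ≤ x ∧ x ≤ e.u ∧ e'.l ≤ x ∧ x ≤ e'.u)
    (hy : e.l ≤ y ∧ y ≤ e.u ∧ e'.l ≤ y ∧ y ≤ e'.u) (hlt : e.f x < e'.f x) :
    e.f y < e'.f y := by
  by_contra hcon
  have hne := h y hy.1 hy.2.1 hy.2.2.1 hy.2.2.2
  have hgt : e'.f y < e.f y := lt_of_le_of_ne (not_lt.1 hcon) hne.symm
  have key := isPreconnected_uIcc (a := x) (b := y) |>.intermediate_value₂
    (Set.left_mem_uIcc) (Set.right_mem_uIcc) e.cont.continuousOn e'.cont.continuousOn
    hlt.le hgt.le
  obtain ⟨z, hz, hz'⟩ := key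
  rw [Set.mem_uIcc] at hz
  refine h z ?_ ?_ ?_ ?_ hz' <;> rcases hz with hz | hz <;> linarith [hz.1, hz.2, hx.1, hx.2.1,
    hx.2.2.1, hx.2.2.2, hy.1, hy.2.1, hy.2.2.1, hy.2.2.2]

lemma Free.gt {e e' : AArc} (h : Free e e') {x y : ℝ}
    (hx : e.l ≤ x ∧ x ≤ e.u ∧ e'.l ≤ x ∧ x ≤ e'.u)
    (hy : e.l ≤ y ∧ y ≤ e.u ∧ e'.l ≤ y ∧ y ≤ e'.u) (hlt : e'.f x < e.f x) :
    e'.f y < e.f y :=
  h.symm.lt ⟨hx.2.2.1, hx.2.2.2, hx.1, hx.2.1⟩ ⟨hy.2.2.1, hy.2.2.2, hy.1, hy.2.1⟩ hlt

end Pool.Agent.H44.Pin
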