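import Pool.Agent.H44.Pin.Draw

/-! The mirror image of a drawing. -/

namespace Pool.Agent.H44.Pin

/-- Reflection exchanging the angles `t` and `9 - t`. -/
noncomputable def R (x : ℝ × ℝ) : ℝ × ℝ := (C 9 * x.1 - S 9 * x.2, -(S 9 * x.1) - C 9 * x.2)

lemma R_R (x : ℝ × ℝ) : R (R x) = x := by
  have h := SC_sq 9
  unfold R
  ext
  · simp only
    linear_combination x.1 * h
  · simp only
    linear_combination x.2 * h

lemma R_lin (a b : ℝ) (x y : ℝ × ℝ) : R (a • x + b • y) = a • R x + b • R y := by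
  unfold R
  ext
  · simp only [Prod.fst_add, Prod.smul_fst, Prod.snd_add, Prod.smul_snd, smul_eq_mul]
    ring
  · simp only [Prod.fst_add, Prod.smul_fst, Prod.snd_add, Prod.smul_snd, smul_eq_mul]
    ring

lemma R_inj {x y : ℝ × ℝ} (h : R x = R y) : x = y := by
  rw [← R_R x, h, R_R]

lemma R_seg {x y z : ℝ × ℝ} (h : z ∈ openSegment ℝ (R x) (R y)) : R z ∈ openSegment ℝ x y := by
  obtain ⟨a, b, ha, hb, hab, rfl⟩ := h
  exact ⟨a, b, ha, hb, hab, by rw [R_lin, R_R, R_R]⟩

lemma R_line (t x : ℝ) : R (x * C t, -(x * S t)) = (x * C (9 - t), -(x * S (9 - t))) := by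
  rw [C_sub, S_sub]
  unfold R
  ext
  · simp only; ring
  · simp only; ring

lemma R_cross (x y : ℝ × ℝ) : cross (R x) (R y) = -cross x y := by
  have h := SC_sq 9
  unfold cross R
  simp only
  linear_combination (-(x.1 * y.2) + x.2 * y.1) * h

/-- The mirror image of a drawing. -/
noncomputable def Drw.mir {V : Type} (D : Drw V) : Drw V where
  p := fun v => R (D.p v)
  par := D.par
  dep := D.dep
  κ := fun v => 5 - D.κ v
  good := D.good
  ch := fun v A c => D.ch v A.rev c
  ch_good := fun h => D.ch_good h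
  ch_par := fun h => D.ch_par h
  ch_dep := fun h => D.ch_dep h
  ch_κ := by
    intro v A c h
    obtain ⟨m, hm⟩ := D.ch_κ h
    have hA : (A.rev.val : ℤ) = 4 - A.val := by
      have := A.isLt
      simp [Fin.rev]
      omega
    refine ⟨-1 - m, ?_⟩
    rw [hm, hA]
    ring
  inj := fun h => D.inj (R_inj h)
  line := by
    intro v hv
    obtain ⟨t, x, hx, h1, h2, h3⟩ := D.line hv
    refine ⟨9 - t, x, hx, ?_, ?_, ?_⟩
    · rw [B_mir]; push_cast; linarith
    · rw [B_mir]; push_cast; linarith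
    · rw [h3, R_line]
  nc := by
    intro v A c v' A' c' h h' hne
    rw [Set.disjoint_left]
    intro z hz hz'
    exact Set.disjoint_left.1 (D.nc h h' hne) (R_seg hz) (R_seg hz')

variable {V : Type} {D : Drw V}

lemma mir_dir {v : V} {A : Fin 5} {c : V} (h : D.ch v A c) : D.mir.dir c = !D.dir c := by
  have hne := cross_ne h
  have hc : cross (D.mir.p (D.mir.par c)) (D.mir.p c) = -cross (D.p (D.par c)) (D.p c) :=
    R_cross _ _
  rcases lt_or_gt_of_ne hne with h1 | h1
  · rw [Drw.dir_true.2 h1, Drw.dir_false.2 (by rw [hc]; linarith)]; rfl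
  · rw [Drw.dir_false.2 h1.le, Drw.dir_true.2 (by rw [hc]; linarith)]; rfl

end Pool.Agent.H44.Pin
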