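import Pool.Agent.H44.Pin.Final2

/-! Propagation of the rules: no homogeneous tree of height 15 can be drawn. -/

namespace Pool.Agent.H44.Pin

variable {V : Type} {D : Drw V}

/-- The children with label `A` are clockwise, and so are their children with small labels. -/
def Qd (f : List (Fin 5) → Bool) (A : Fin 5) : Prop :=
  f [A] = true ∧ ∀ A' : Fin 5, A.val + A'.val < 4 → f [A, A'] = true

lemma Hom.child {M h : ℕ} (hM : 1 ≤ M) {f : List (Fin 5) → Bool} {v : V}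
    (H : Hom D M (h + 1) f v) (A : Fin 5) :
    ∃ c, D.ch v A c ∧ D.good c ∧ Hom D M h (fun l => f (A :: l)) c := by
  obtain ⟨s, hs, hc⟩ := H A
  have hne : s.Nonempty := Finset.card_pos.1 (by omega)
  obtain ⟨c, hcs⟩ := hne
  exact ⟨c, (hc c hcs).1, (D.ch_good (hc c hcs).1).2, (hc c hcs).2.2⟩

lemma M0_pos (h : ℕ) : 1 ≤ M0 h := by unfold M0; omega

theorem stepQ {M : ℕ} {f : List (Fin 5) → Bool} {v : V} (A A' : Fin 5)
    (H : Hom D M 3 f v) (hv : D.good v) (hM1 : M0 1 ≤ M) (hM2 : M0 2 ≤ M) (hQ : Qd f A)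
    (hAA : A.val + A'.val ≤ 2) : Qd (fun l => f (A :: l)) A' := by
  obtain ⟨c, hc, hgc, Hc⟩ := H.child ((M0_pos 1).trans hM1) A
  have h1 : f [A, A'] = true := hQ.2 A' (by omega)
  rcases R1 A' Hc hgc hM1 h1 with h2 | h2
  · exact absurd h2 (R2 A A' H hv hM2 hQ.1 hQ.2 hAA)
  · exact ⟨h1, h2⟩

theorem goodfinal {M : ℕ} {f : List (Fin 5) → Bool} {v : V} (H : Hom D M 10 f v)
    (hv : D.good v) (hM1 : M0 1 ≤ M) (hM2 : M0 2 ≤ M) (hM7 : M0 7 ≤ M) (hQ : Qd f 0)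
    (hκ : D.κ v % 3 = 0) : False := by
  have m := (M0_pos 1).trans hM1
  obtain ⟨c1, -, g1, H1⟩ := H.child m 0
  have a0 : Qd (fun l => f (0 :: l)) 0 := stepQ 0 0 (H.mono (by omega)) hv hM1 hM2 hQ (by simp)
  have a2 : Qd (fun l => f (0 :: l)) 2 := stepQ 0 2 (H.mono (by omega)) hv hM1 hM2 hQ (by simp)
  obtain ⟨c2, -, g2, H2⟩ := H1.child m 2
  have b0 := stepQ 2 0 (H1.mono (by omega)) g1 hM1 hM2 a2 (by simp)
  obtain ⟨c3, -, g3, H3⟩ := H2.child m 0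
  have c1' := stepQ 0 1 (H2.mono (by omega)) g2 hM1 hM2 b0 (by simp)
  obtain ⟨c4, -, g4, H4⟩ := H3.child m 1
  have d0 := stepQ 1 0 (H3.mono (by omega)) g3 hM1 hM2 c1' (by simp)
  obtain ⟨c5, -, g5, H5⟩ := H4.child m 0
  have e1 := stepQ 0 1 (H4.mono (by omega)) g4 hM1 hM2 d0 (by simp)
  obtain ⟨c6, -, g6, H6⟩ := H5.child m 1
  have f0 := stepQ 1 0 (H5.mono (by omega)) g5 hM1 hM2 e1 (by simp)
  exact final (H.mono (by omega)) hv hM7 hκ hQ.1 a0.1 (a0.2 3 (by simp)) a2.1 b0.1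
    (b0.2 3 (by simp)) c1'.1 d0.1 (d0.2 3 (by simp)) e1.1 f0.1 (f0.2 3 (by simp))

theorem propFinal {M : ℕ} {f : List (Fin 5) → Bool} {v : V} (H : Hom D M 13 f v)
    (hv : D.good v) (hM1 : M0 1 ≤ M) (hM2 : M0 2 ≤ M) (hM7 : M0 7 ≤ M) (hQ : Qd f 0) :
    False := by
  have m := (M0_pos 1).trans hM1
  obtain ⟨c1, k1, g1, H1⟩ := H.child m 0
  have a0 : Qd (fun l => f (0 :: l)) 0 := stepQ 0 0 (H.mono (by omega)) hv hM1 hM2 hQ (by simp)
  obtain ⟨c2, k2, g2, H2⟩ := H1.child m 0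
  have b0 := stepQ 0 0 (H1.mono (by omega)) g1 hM1 hM2 a0 (by simp)
  obtain ⟨m1, e1⟩ := D.ch_κ k1
  obtain ⟨m2, e2⟩ := D.ch_κ k2
  simp only [Fin.val_zero, Nat.cast_zero, zero_add] at e1 e2
  have hcase : D.κ v % 3 = 0 ∨ D.κ v % 3 = 1 ∨ D.κ v % 3 = 2 := by omega
  rcases hcase with h | h | h
  · exact goodfinal (H.mono (by omega)) hv hM1 hM2 hM7 hQ h
  · exact goodfinal (H2.mono (by omega)) g2 hM1 hM2 hM7 b0 (by omega)
  · exact goodfinal (H1.mono (by omega)) g1 hM1 hM2 hM7 a0 (by omega)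

theorem start {M : ℕ} {f : List (Fin 5) → Bool} {v : V} (H : Hom D M 15 f v)
    (hv : D.good v) (hM1 : M0 1 ≤ M) (hM2 : M0 2 ≤ M) (hM7 : M0 7 ≤ M) (h2 : f [2] = true) :
    False := by
  have m := (M0_pos 1).trans hM1
  obtain ⟨c1, k1, g1, H1⟩ := H.child m 2
  rcases R1 2 (H.mono (by omega)) hv hM1 h2 with hP | hQ
  · have h3 := R3 2 (H.mono (by omega)) hv hM2 h2 hP (by simp) (by simp)
    have H1' := H1.mir
    have h4 : (fun l : List (Fin 5) => !(fun l => f (2 :: l)) (l.map Fin.rev)) [0] = true := by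
      have := hP 4
      simpa using this
    rcases R1 0 (H1'.mono (by omega)) (show D.mir.good c1 from g1) hM1 h4 with hP' | hQ'
    · apply h3
      intro A''
      have := hP' A''.rev
      simpa using this
    · exact propFinal (H1'.mono (by omega)) (show D.mir.good c1 from g1) hM1 hM2 hM7 ⟨h4, hQ'⟩
  · have a0 := stepQ 2 0 (H.mono (by omega)) hv hM1 hM2 ⟨h2, hQ⟩ (by simp)
    exact propFinal (H1.mono (by omega)) g1 hM1 hM2 hM7 a0

theorem noHom {M : ℕ} {f : List (Fin 5) → Bool} {v : V} (H : Hom D M 15 f v)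
    (hv : D.good v) (hM1 : M0 1 ≤ M) (hM2 : M0 2 ≤ M) (hM7 : M0 7 ≤ M) : False := by
  by_cases h2 : f [2] = true
  · exact start H hv hM1 hM2 hM7 h2
  · refine start H.mir (show D.mir.good v from hv) hM1 hM2 hM7 ?_
    have h3 : f [2] = false := by simpa using h2
    have e : Fin.rev (2 : Fin 5) = 2 := by decide
    simp [e, h3]

end Pool.Agent.H44.Pin
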