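import Pool.Agent.H44.Pin.Seven

/-! The three rules for homogeneous subtrees. -/

namespace Pool.Agent.H44.Pin

variable {V : Type} {D : Drw V}

/-- Seven conflict-free copies attached at `X0`. -/
structure Sev (D : Drw V) (X0 : LV D) (A0 : Fin 5) (f : List (Fin 5) → Bool) (h : ℕ) where
  X : Fin 7 → List (Fin 5) → LV D
  c0 : ∀ i, D.ch X0.v A0 (X i []).v
  cs : ∀ i l A, l.length < h → D.ch (X i l).v A (X i (l ++ [A])).v
  P : ∀ i l, l.length ≤ h → (X i l).P = X0.P + pos f (A0 :: l)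
  dep : ∀ i l, l.length ≤ h → D.dep (X i l).v = D.dep X0.v + 1 + l.length
  sep : ∀ i j, i ≠ j → ∀ l l', l.length ≤ h → l'.length ≤ h → (X i l).v ≠ (X j l').v ∧
        D.p (X i l).v ∉ D.seg (X j l').v
  vs : ∀ i l, l.length ≤ h → D.p X0.v ∉ D.seg (X i l).v

theorem exists_Sev {M h : ℕ} {f : List (Fin 5) → Bool} (X0 : LV D) (A0 : Fin 5)
    (H : Hom D M (h + 1) f X0.v) (hM : M0 h ≤ M) : Nonempty (Sev D X0 A0 f h) := by
  obtain ⟨X, h1, h2, h3, h4, h5, h6⟩ := seven X0 A0 H hM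
  exact ⟨⟨X, h1, h2, h3, h4, h5, h6⟩⟩

variable {X0 : LV D} {A0 : Fin 5} {f : List (Fin 5) → Bool} {h : ℕ}

lemma Sev.E0 (S : Sev D X0 A0 f h) (i : Fin 7) : IsE (S.X i []).v X0 (S.X i []) :=
  ⟨Drw.isCh_of ⟨_, _, S.c0 i⟩, Or.inl ⟨(D.ch_par (S.c0 i)).symm, rfl⟩⟩

lemma Sev.Es (S : Sev D X0 A0 f h) (i : Fin 7) (l : List (Fin 5)) (A : Fin 5)
    (hl : l.length < h) : IsE (S.X i (l ++ [A])).v (S.X i l) (S.X i (l ++ [A])) :=
  ⟨Drw.isCh_of ⟨_, _, S.cs i l A hl⟩, Or.inl ⟨(D.ch_par (S.cs i l A hl)).symm, rfl⟩⟩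

lemma IsE.symm {c : V} {X Y : LV D} (h : IsE c X Y) : IsE c Y X :=
  ⟨h.1, h.2.symm.imp (fun h => ⟨h.2, h.1⟩) (fun h => ⟨h.2, h.1⟩)⟩

lemma Sev.ends (S : Sev D X0 A0 f h) {i : Fin 7} {l : List (Fin 5)} (hl : l.length ≤ h)
    {Y Z : LV D} (E : IsE (S.X i l).v Y Z) :
    ((l = [] ∧ Y.v = X0.v) ∨ ∃ m : List (Fin 5), m.length ≤ h ∧ Y.v = (S.X i m).v) ∧
    ((l = [] ∧ Z.v = X0.v) ∨ ∃ m : List (Fin 5), m.length ≤ h ∧ Z.v = (S.X i m).v) := by
  have hp : (l = [] ∧ D.par (S.X i l).v = X0.v) ∨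
      ∃ m : List (Fin 5), m.length ≤ h ∧ D.par (S.X i l).v = (S.X i m).v := by
    rcases List.eq_nil_or_concat l with rfl | ⟨m, A', rfl⟩
    · exact Or.inl ⟨rfl, D.ch_par (S.c0 i)⟩
    · rw [List.concat_eq_append] at hl ⊢
      rw [List.length_append, List.length_singleton] at hl
      exact Or.inr ⟨m, by omega, D.ch_par (S.cs i m A' (by omega))⟩
  rcases E.2 with ⟨e1, e2⟩ | ⟨e1, e2⟩
  · rw [e1, e2]
    exact ⟨hp, Or.inr ⟨l, hl, rfl⟩⟩
  · rw [e1, e2]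
    exact ⟨Or.inr ⟨l, hl, rfl⟩, hp⟩

lemma Sev.X0_ne (S : Sev D X0 A0 f h) (i : Fin 7) (l : List (Fin 5)) (hl : l.length ≤ h) :
    X0.v ≠ (S.X i l).v := by
  intro he
  have := S.dep i l hl
  rw [← he] at this
  omega

lemma Sev.free (S : Sev D X0 A0 f h) {i j : Fin 7} (hij : i ≠ j) {l l' : List (Fin 5)}
    (hl : l.length ≤ h) (hl' : l'.length ≤ h) (hne : l ≠ [] ∨ l' ≠ []) {Y Z Y' Z' : LV D}
    (E : IsE (S.X i l).v Y Z) (E' : IsE (S.X j l').v Y' Z') (h1 : Y.a < Z.a)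
    (h2 : Z.a < Y.a + 12) (h1' : Y'.a < Z'.a) (h2' : Z'.a < Y'.a + 12) :
    Free (arc Y Z) (arc Y' Z') := by
  obtain ⟨eY, eZ⟩ := S.ends hl E
  obtain ⟨eY', eZ'⟩ := S.ends hl' E'
  have key : ∀ {i j : Fin 7} {l' : List (Fin 5)} {W : LV D}, i ≠ j → l'.length ≤ h →
      ((l = [] ∧ W.v = X0.v) ∨ ∃ m : List (Fin 5), m.length ≤ h ∧ W.v = (S.X i m).v) →
      D.p W.v ∉ D.seg (S.X j l').v := by
    intro i j l' W hij hl' hW
    rcases hW with ⟨-, hW⟩ | ⟨m, hm, hW⟩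
    · rw [hW]; exact S.vs j l' hl'
    · rw [hW]; exact (S.sep i j hij m l' hm hl').2
  have key' : ∀ {i j : Fin 7} {l l' : List (Fin 5)} {W : LV D}, i ≠ j → l'.length ≤ h →
      ((l = [] ∧ W.v = X0.v) ∨ ∃ m : List (Fin 5), m.length ≤ h ∧ W.v = (S.X i m).v) →
      D.p W.v ∉ D.seg (S.X j l').v := by
    intro i j l l' W hij hl' hW
    rcases hW with ⟨-, hW⟩ | ⟨m, hm, hW⟩
    · rw [hW]; exact S.vs j l' hl'
    · rw [hW]; exact (S.sep i j hij m l' hm hl').2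
  have dd : ∀ {W W' : LV D},
      ((l = [] ∧ W.v = X0.v) ∨ ∃ m : List (Fin 5), m.length ≤ h ∧ W.v = (S.X i m).v) →
      ((l' = [] ∧ W'.v = X0.v) ∨ ∃ m : List (Fin 5), m.length ≤ h ∧ W'.v = (S.X j m).v) →
      W.v ≠ W'.v := by
    intro W W' hW hW'
    rcases hW with ⟨q, hW⟩ | ⟨m, hm, hW⟩ <;> rcases hW' with ⟨q', hW'⟩ | ⟨m', hm', hW'⟩
    · rcases hne with hne | hne
      · exact absurd q hne
      · exact absurd q' hne
    · rw [hW, hW']; exact S.X0_ne j m' hm'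
    · rw [hW, hW']; exact (S.X0_ne i m hm).symm
    · rw [hW, hW']; exact (S.sep i j hij m m' hm hm').1
  exact arc_free E E' (S.sep i j hij l l' hl hl').1 h1 h2 h1' h2'
    (fun _ _ => ⟨key' hij hl' eY, dd eY eY', dd eY eZ'⟩)
    (fun _ _ => ⟨key' hij hl' eZ, dd eZ eY', dd eZ eZ'⟩)
    (fun _ _ => key' hij.symm hl eY') (fun _ _ => key' hij.symm hl eZ')

lemma arc_ne_vertex {c : V} {X Y Z : LV D} (E : IsE c X Y) (h2 : Y.a < X.a + 12)
    (h3 : X.a < Z.a) (h4 : Z.a < Y.a) (hn : D.p Z.v ∉ D.seg c) : (arc X Y).f Z.a ≠ Z.h := by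
  intro he
  have := arc_mem E h2 h3 h4
  rw [he, ← Z.hp] at this
  exact hn this

/-- First rule. -/
theorem R1 {M : ℕ} {f : List (Fin 5) → Bool} {v : V} (A : Fin 5)
    (H : Hom D M 2 f v) (hv : D.good v) (hM : M0 1 ≤ M) (hA : f [A] = true) :
    (∀ A', f [A, A'] = false) ∨ (∀ A' : Fin 5, A.val + A'.val < 4 → f [A, A'] = true) := by
  by_contra hcon
  push Not at hcon
  obtain ⟨⟨A1, hA1⟩, A2, hA2, hA2'⟩ := hcon
  have hA1 : f [A, A1] = true := by simpa using hA1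
  have hA2' : f [A, A2] = false := by simpa using hA2'
  obtain ⟨X0, rfl⟩ := exists_LV hv
  obtain ⟨S⟩ := exists_Sev X0 A H hM
  have bA := A.isLt
  have bA1 := A1.isLt
  have bA2 := A2.isLt
  have pC : ∀ i, (S.X i []).P = X0.P + (A.val + 1) := by
    intro i; rw [S.P i [] (by simp)]; simp [pos, stp, hA]
  have pD : ∀ i, (S.X i [A2]).P = X0.P + (A.val + 1) + (A2.val + 1 - 6) := by
    intro i; rw [S.P i [A2] (by simp)]; simp [pos, stp, hA, hA2']; ring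
  have pF : ∀ i, (S.X i [A1]).P = X0.P + (A.val + 1) + (A1.val + 1) := by
    intro i; rw [S.P i [A1] (by simp)]; simp [pos, stp, hA, hA1]; ring
  have oVC : ∀ i, X0.a < (S.X i []).a := fun i => LV.lt (by rw [pC]; omega)
  have oVC' : ∀ i, (S.X i []).a < X0.a + 12 := fun i => LV.lt12 (by rw [pC]; omega)
  have oDV : ∀ i, (S.X i [A2]).a < X0.a := fun i => LV.lt (by rw [pD]; omega)
  have oDC : ∀ i, (S.X i [A2]).a < (S.X i []).a := fun i => (oDV i).trans (oVC i)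
  have oDC' : ∀ i, (S.X i []).a < (S.X i [A2]).a + 12 :=
    fun i => LV.lt12 (by rw [pC, pD]; omega)
  have oCF : ∀ i j, (S.X i []).a < (S.X j [A1]).a := fun i j => LV.lt (by rw [pC, pF]; omega)
  have oCF' : ∀ i, (S.X i [A1]).a < (S.X i []).a + 12 :=
    fun i => LV.lt12 (by rw [pC, pF]; omega)
  have eC : ∀ i, IsE (S.X i []).v X0 (S.X i []) := S.E0
  have eD : ∀ i, IsE (S.X i [A2]).v (S.X i [A2]) (S.X i []) :=
    fun i => (S.Es i [] A2 (by simp)).symm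
  have eF : ∀ i, IsE (S.X i [A1]).v (S.X i []) (S.X i [A1]) := fun i => S.Es i [] A1 (by simp)
  let K : Fin 7 → Cop1 X0.a X0.h := fun i =>
    { n := arc X0 (S.X i [])
      a := arc (S.X i [A2]) (S.X i [])
      b := arc (S.X i []) (S.X i [A1])
      c := (S.X i []).a
      zc := oVC i
      nl := rfl
      nu := rfl
      al := (oDV i).le
      au := rfl
      bl := rfl
      nz := arc_left (oVC i) (oVC' i)
      nc := by rw [arc_right (oVC i) (oVC' i), arc_right (oDC i) (oDC' i)]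
      ab := by rw [arc_right (oDC i) (oDC' i), arc_left (oCF i i) (oCF' i)]
      az := (arc_ne_vertex (eD i) (oDC' i) (oDV i) (oVC i) (S.vs i _ (by simp))).symm }
  refine U1abs K (fun i j => (oCF i j).le) ?_ ?_ ?_ ?_
  · intro i j hij
    exact S.free hij (by simp) (by simp) (Or.inr (by simp)) (eC i) (eD j) (oVC i) (oVC' i)
      (oDC j) (oDC' j)
  · intro i j hij
    exact S.free hij (by simp) (by simp) (Or.inr (by simp)) (eC i) (eF j) (oVC i) (oVC' i)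
      (oCF j j) (oCF' j)
  · intro i j hij
    exact S.free hij (by simp) (by simp) (Or.inr (by simp)) (eD i) (eD j) (oDC i) (oDC' i)
      (oDC j) (oDC' j)
  · intro i j hij
    exact S.free hij (by simp) (by simp) (Or.inr (by simp)) (eD i) (eF j) (oDC i) (oDC' i)
      (oCF j j) (oCF' j)

end Pool.Agent.H44.Pin
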