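import Pool.Agent.H44.Pin.Rules

/-! The second and third rules. -/

namespace Pool.Agent.H44.Pin

variable {V : Type} {D : Drw V}

lemma IsE.nm {c c' : V} {X Y Z : LV D} (E : IsE c X Y) (E' : IsE c' Z Y) (hne : c ≠ c') :
    D.p X.v ∉ D.seg c' := by
  have h := D.nc' E.1 E'.1 hne
  rw [← E.seg, ← E'.seg] at h
  rw [← E'.seg]
  exact not_mem_of_adj h

/-- Second rule. -/
theorem R2 {M : ℕ} {f : List (Fin 5) → Bool} {v : V} (A A' : Fin 5)
    (H : Hom D M 3 f v) (hv : D.good v) (hM : M0 2 ≤ M) (hA : f [A] = true)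
    (hQ : ∀ A'' : Fin 5, A.val + A''.val < 4 → f [A, A''] = true)
    (hAA : A.val + A'.val ≤ 2) : ¬ ∀ A'', f [A, A', A''] = false := by
  intro hP
  obtain ⟨X0, rfl⟩ := exists_LV hv
  obtain ⟨S⟩ := exists_Sev X0 A H hM
  have bA := A.isLt
  have bA' := A'.isLt
  let B' : Fin 5 := ⟨A'.val + 1, by omega⟩
  have hB' : B'.val = A'.val + 1 := rfl
  have q1 : f [A, A'] = true := hQ A' (by omega)
  have q2 : f [A, B'] = true := hQ B' (by omega)
  have q3 : f [A, A', 0] = false := hP 0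
  have pC : ∀ i, (S.X i []).P = X0.P + (A.val + 1) := by
    intro i; rw [S.P i [] (by simp)]; simp [pos, stp, hA]
  have pE : ∀ i, (S.X i [A']).P = X0.P + (A.val + 1) + (A'.val + 1) := by
    intro i; rw [S.P i [A'] (by simp)]; simp [pos, stp, hA, q1]; ring
  have pG : ∀ i, (S.X i [A', 0]).P = X0.P + (A.val + 1) + (A'.val + 1) - 5 := by
    intro i; rw [S.P i [A', 0] (by simp)]; simp [pos, stp, hA, q1, q3]; ring
  have pF : ∀ i, (S.X i [B']).P = X0.P + (A.val + 1) + (A'.val + 2) := by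
    intro i; rw [S.P i [B'] (by simp)]; simp [pos, stp, hA, q2, hB']; ring
  have oVC : ∀ i, X0.a < (S.X i []).a := fun i => LV.lt (by rw [pC]; omega)
  have oVC' : ∀ i, (S.X i []).a < X0.a + 12 := fun i => LV.lt12 (by rw [pC]; omega)
  have oCE : ∀ i j, (S.X i []).a < (S.X j [A']).a := fun i j => LV.lt (by rw [pC, pE]; omega)
  have oCE' : ∀ i, (S.X i [A']).a < (S.X i []).a + 12 :=
    fun i => LV.lt12 (by rw [pC, pE]; omega)
  have oGV : ∀ i, (S.X i [A', 0]).a < X0.a := fun i => LV.lt (by rw [pG]; omega)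
  have oGE : ∀ i, (S.X i [A', 0]).a < (S.X i [A']).a := fun i => LV.lt (by rw [pG, pE]; omega)
  have oGE' : ∀ i, (S.X i [A']).a < (S.X i [A', 0]).a + 12 :=
    fun i => LV.lt12 (by rw [pG, pE]; omega)
  have oEF : ∀ i j, (S.X i [A']).a < (S.X j [B']).a := fun i j => LV.lt (by rw [pE, pF]; omega)
  have oCF : ∀ i, (S.X i []).a < (S.X i [B']).a := fun i => (oCE i i).trans (oEF i i)
  have oCF' : ∀ i, (S.X i [B']).a < (S.X i []).a + 12 :=
    fun i => LV.lt12 (by rw [pC, pF]; omega)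
  have eC : ∀ i, IsE (S.X i []).v X0 (S.X i []) := S.E0
  have eE : ∀ i, IsE (S.X i [A']).v (S.X i []) (S.X i [A']) := fun i => S.Es i [] A' (by simp)
  have eG : ∀ i, IsE (S.X i [A', 0]).v (S.X i [A', 0]) (S.X i [A']) :=
    fun i => (S.Es i [A'] 0 (by simp)).symm
  have eF : ∀ i, IsE (S.X i [B']).v (S.X i []) (S.X i [B']) := fun i => S.Es i [] B' (by simp)
  have d0 : ∀ i, (S.X i []).v ≠ (S.X i [A', 0]).v := by
    intro i he
    have h1 := S.dep i [] (by simp)
    have h2 := S.dep i [A', 0] (by simp)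
    rw [he, h2] at h1
    simp at h1
  have d1 : ∀ i, (S.X i [A']).v ≠ (S.X i [A', 0]).v := by
    intro i he
    have h1 := S.dep i [A'] (by simp)
    have h2 := S.dep i [A', 0] (by simp)
    rw [he, h2] at h1
    simp at h1
  have d2 : ∀ i, (S.X i []).v ≠ (S.X i [A']).v := by
    intro i he
    have h1 := S.dep i [] (by simp)
    have h2 := S.dep i [A'] (by simp)
    rw [he, h2] at h1
    simp at h1
  have cG : ∀ i, D.p (S.X i []).v ∉ D.seg (S.X i [A', 0]).v :=
    fun i => IsE.nm (eE i) (eG i) (d1 i)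
  let K : Fin 7 → Cop2 X0.a X0.h := fun i =>
    { n := arc X0 (S.X i [])
      g := arc (S.X i []) (S.X i [A'])
      a := arc (S.X i [A', 0]) (S.X i [A'])
      b := arc (S.X i []) (S.X i [B'])
      d := (S.X i []).a
      e := (S.X i [A']).a
      zd := oVC i
      nl := rfl
      nu := rfl
      gl := rfl
      gu := rfl
      al := (oGV i).le
      au := rfl
      bl := rfl
      nz := arc_left (oVC i) (oVC' i)
      nd := by rw [arc_right (oVC i) (oVC' i), arc_left (oCE i i) (oCE' i)]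
      bd := by rw [arc_left (oCF i) (oCF' i), arc_left (oCE i i) (oCE' i)]
      ae := by rw [arc_right (oGE i) (oGE' i), arc_right (oCE i i) (oCE' i)]
      F := by
        refine arc_free (eC i) (eG i) (d0 i) (oVC i) (oVC' i) (oGE i) (oGE' i) ?_ ?_ ?_ ?_
        · exact fun _ _ => ⟨S.vs i _ (by simp), S.X0_ne i _ (by simp), S.X0_ne i _ (by simp)⟩
        · exact fun _ _ => ⟨cG i, d0 i, d2 i⟩
        · intro h1 _
          exact absurd h1 (not_le.2 (oGV i))
        · intro _ h1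
          exact absurd h1 (not_le.2 (oCE i i))
      ne := by
        rw [arc_left (oCE i i) (oCE' i)]
        exact arc_ne_vertex (eG i) (oGE' i) ((oGV i).trans (oVC i)) (oCE i i) (cG i) }
  refine U2abs K (fun i j => oCE i j) (fun i j => (oEF i j).le) ?_ ?_ ?_ ?_ ?_ ?_ ?_ ?_
  · intro i j hij
    exact S.free hij (by simp) (by simp) (Or.inr (by simp)) (eC i) (eG j) (oVC i) (oVC' i)
      (oGE j) (oGE' j)
  · intro i j hij
    exact S.free hij (by simp) (by simp) (Or.inr (by simp)) (eC i) (eE j) (oVC i) (oVC' i)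
      (oCE j j) (oCE' j)
  · intro i j hij
    exact S.free hij (by simp) (by simp) (Or.inr (by simp)) (eC i) (eF j) (oVC i) (oVC' i)
      (oCF j) (oCF' j)
  · intro i j hij
    exact S.free hij (by simp) (by simp) (Or.inr (by simp)) (eE i) (eG j) (oCE i i) (oCE' i)
      (oGE j) (oGE' j)
  · intro i j hij
    exact S.free hij (by simp) (by simp) (Or.inr (by simp)) (eE i) (eE j) (oCE i i) (oCE' i)
      (oCE j j) (oCE' j)
  · intro i j hij
    exact S.free hij (by simp) (by simp) (Or.inr (by simp)) (eG i) (eG j) (oGE i) (oGE' i)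
      (oGE j) (oGE' j)
  · intro i j hij
    exact S.free hij (by simp) (by simp) (Or.inr (by simp)) (eE i) (eF j) (oCE i i) (oCE' i)
      (oCF j) (oCF' j)
  · intro i j hij
    exact S.free hij (by simp) (by simp) (Or.inr (by simp)) (eG i) (eF j) (oGE i) (oGE' i)
      (oCF j) (oCF' j)

/-- Third rule. -/
theorem R3 {M : ℕ} {f : List (Fin 5) → Bool} {v : V} (A : Fin 5)
    (H : Hom D M 3 f v) (hv : D.good v) (hM : M0 2 ≤ M) (hA : f [A] = true)
    (hP : ∀ A'' : Fin 5, f [A, A''] = false) (hA1 : 1 ≤ A.val) (hA3 : A.val ≤ 3) :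
    ¬ ∀ A'', f [A, 4, A''] = true := by
  intro hQ
  obtain ⟨X0, rfl⟩ := exists_LV hv
  obtain ⟨S⟩ := exists_Sev X0 A H hM
  have q1 : f [A, 4] = false := hP 4
  have q2 : f [A, 0] = false := hP 0
  have q3 : f [A, 4, 1] = true := hQ 1
  have pC : ∀ i, (S.X i []).P = X0.P + (A.val + 1) := by
    intro i; rw [S.P i [] (by simp)]; simp [pos, stp, hA]
  have pE : ∀ i, (S.X i [4]).P = X0.P + A.val := by
    intro i; rw [S.P i [4] (by simp)]; simp [pos, stp, hA, q1]
  have pG : ∀ i, (S.X i [4, 1]).P = X0.P + A.val + 2 := by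
    intro i; rw [S.P i [4, 1] (by simp)]; simp [pos, stp, hA, q1, q3]; ring
  have pF : ∀ i, (S.X i [0]).P = X0.P + A.val - 4 := by
    intro i; rw [S.P i [0] (by simp)]; simp [pos, stp, hA, q2]; ring
  have oVC : ∀ i, X0.a < (S.X i []).a := fun i => LV.lt (by rw [pC]; omega)
  have oVC' : ∀ i, (S.X i []).a < X0.a + 12 := fun i => LV.lt12 (by rw [pC]; omega)
  have oVE : ∀ i, X0.a < (S.X i [4]).a := fun i => LV.lt (by rw [pE]; omega)
  have oEC : ∀ i j, (S.X i [4]).a < (S.X j []).a := fun i j => LV.lt (by rw [pC, pE]; omega)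
  have oEC' : ∀ i, (S.X i []).a < (S.X i [4]).a + 12 :=
    fun i => LV.lt12 (by rw [pC, pE]; omega)
  have oFV : ∀ i, (S.X i [0]).a < X0.a := fun i => LV.lt (by rw [pF]; omega)
  have oFC : ∀ i, (S.X i [0]).a < (S.X i []).a := fun i => (oFV i).trans (oVC i)
  have oFC' : ∀ i, (S.X i []).a < (S.X i [0]).a + 12 :=
    fun i => LV.lt12 (by rw [pC, pF]; omega)
  have oCG : ∀ i j, (S.X i []).a < (S.X j [4, 1]).a :=
    fun i j => LV.lt (by rw [pC, pG]; omega)
  have oEG : ∀ i, (S.X i [4]).a < (S.X i [4, 1]).a := fun i => (oEC i i).trans (oCG i i)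
  have oEG' : ∀ i, (S.X i [4, 1]).a < (S.X i [4]).a + 12 :=
    fun i => LV.lt12 (by rw [pE, pG]; omega)
  have eC : ∀ i, IsE (S.X i []).v X0 (S.X i []) := S.E0
  have eE : ∀ i, IsE (S.X i [4]).v (S.X i [4]) (S.X i []) :=
    fun i => (S.Es i [] 4 (by simp)).symm
  have eF : ∀ i, IsE (S.X i [0]).v (S.X i [0]) (S.X i []) :=
    fun i => (S.Es i [] 0 (by simp)).symm
  have eG : ∀ i, IsE (S.X i [4, 1]).v (S.X i [4]) (S.X i [4, 1]) :=
    fun i => S.Es i [4] 1 (by simp)
  -- distinctness inside one copy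
  have d1 : ∀ i, (S.X i [4]).v ≠ (S.X i [4, 1]).v := by
    intro i he
    have h1 := S.dep i [4] (by simp)
    have h2 := S.dep i [4, 1] (by simp)
    rw [he, h2] at h1
    simp at h1
  have d2 : ∀ i, (S.X i [0]).v ≠ (S.X i [4, 1]).v := by
    intro i he
    have h1 := S.dep i [0] (by simp)
    have h2 := S.dep i [4, 1] (by simp)
    rw [he, h2] at h1
    simp at h1
  have d3 : ∀ i, (S.X i [4]).v ≠ (S.X i [0]).v := by
    intro i he
    have h1 := (S.X i [4]).hκ
    have h2 := (S.X i [0]).hκ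
    rw [pE, he] at h1
    rw [pF] at h2
    obtain ⟨m1, h1⟩ := h1
    obtain ⟨m2, h2⟩ := h2
    omega
  have d4 : ∀ i, (S.X i []).v ≠ (S.X i [4]).v := by
    intro i he
    have h1 := S.dep i [] (by simp)
    have h2 := S.dep i [4] (by simp)
    rw [he, h2] at h1
    simp at h1
  have d5 : ∀ i, (S.X i []).v ≠ (S.X i [4, 1]).v := by
    intro i he
    have h1 := S.dep i [] (by simp)
    have h2 := S.dep i [4, 1] (by simp)
    rw [he, h2] at h1
    simp at h1
  have cG : ∀ i, D.p (S.X i []).v ∉ D.seg (S.X i [4, 1]).v :=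
    fun i => IsE.nm (eE i).symm (eG i).symm (d1 i)
  have cF : ∀ i, D.p (S.X i [4]).v ∉ D.seg (S.X i [0]).v :=
    fun i => IsE.nm (eE i) (eF i) (d3 i)
  let K : Fin 7 → Cop3 X0.a X0.h := fun i =>
    { n := arc X0 (S.X i [])
      g := arc (S.X i [4]) (S.X i [])
      a := arc (S.X i [0]) (S.X i [])
      b := arc (S.X i [4]) (S.X i [4, 1])
      d := (S.X i []).a
      e := (S.X i [4]).a
      ze := oVE i
      nl := rfl
      nu := rfl
      gl := rfl
      gu := rfl
      al := (oFV i).le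
      au := rfl
      bl := rfl
      nz := arc_left (oVC i) (oVC' i)
      nd := by rw [arc_right (oVC i) (oVC' i), arc_right (oEC i i) (oEC' i)]
      ad := by rw [arc_right (oFC i) (oFC' i), arc_right (oEC i i) (oEC' i)]
      be := by rw [arc_left (oEG i) (oEG' i), arc_left (oEC i i) (oEC' i)]
      F := by
        refine arc_free (eF i) (eG i) (d2 i) (oFC i) (oFC' i) (oEG i) (oEG' i) ?_ ?_ ?_ ?_
        · intro h1 _
          exact absurd h1 (not_le.2 ((oFV i).trans (oVE i)))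
        · exact fun _ _ => ⟨cG i, d4 i, d5 i⟩
        · exact fun _ _ => cF i
        · intro _ h1
          exact absurd h1 (not_le.2 (oCG i i))
      ne := by
        rw [arc_left (oEG i) (oEG' i)]
        exact arc_ne_vertex (eF i) (oFC' i) ((oFV i).trans (oVE i)) (oEC i i) (cF i)
      nez := (arc_ne_vertex (eF i) (oFC' i) (oFV i) (oVC i) (S.vs i _ (by simp))).symm }
  refine U3abs K (fun i j => oEC i j) (fun i j => (oCG i j).le) ?_ ?_ ?_ ?_ ?_ ?_
  · intro i j hij
    exact S.free hij (by simp) (by simp) (Or.inr (by simp)) (eC i) (eF j) (oVC i) (oVC' i)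
      (oFC j) (oFC' j)
  · intro i j hij
    exact S.free hij (by simp) (by simp) (Or.inr (by simp)) (eC i) (eE j) (oVC i) (oVC' i)
      (oEC j j) (oEC' j)
  · intro i j hij
    exact S.free hij (by simp) (by simp) (Or.inr (by simp)) (eC i) (eG j) (oVC i) (oVC' i)
      (oEG j) (oEG' j)
  · intro i j hij
    exact S.free hij (by simp) (by simp) (Or.inr (by simp)) (eF i) (eF j) (oFC i) (oFC' i)
      (oFC j) (oFC' j)
  · intro i j hij
    exact S.free hij (by simp) (by simp) (Or.inr (by simp)) (eF i) (eG j) (oFC i) (oFC' i)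
      (oEG j) (oEG' j)
  · intro i j hij
    exact S.free hij (by simp) (by simp) (Or.inr (by simp)) (eF i) (eE j) (oFC i) (oFC' i)
      (oEC j j) (oEC' j)

end Pool.Agent.H44.Pin
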