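import Pool.Agent.H44.Pin.Mir

/-! Selection of conflict-free copies and homogeneous subtrees. -/

namespace Pool.Agent.H44.Pin

open Finset

/-- independent sets in a digraph with small out-degrees -/
lemma indep {ι : Type} (R : ι → ι → Prop) (s : ℕ) : ∀ (k : ℕ) (I : Finset ι),
    (∀ i ∈ I, ∀ T : Finset ι, T ⊆ I → (∀ j ∈ T, R i j) → T.card ≤ s) →
    k * (2 * s + 1) ≤ I.card →
    ∃ J ⊆ I, J.card = k ∧ ∀ i ∈ J, ∀ j ∈ J, i ≠ j → ¬R i j := by
  classical
  intro k
  induction k with
  | zero => intro I _ _; exact ⟨∅, by simp, by simp, by simp⟩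
  | succ k ih =>
    intro I hout hcard
    have hpos : 0 < I.card := by
      have : 0 < (k + 1) * (2 * s + 1) := by positivity
      omega
    have hne : I.Nonempty := card_pos.1 hpos
    -- double counting
    have hdc : ∑ j ∈ I, (I.filter fun i => R i j).card = ∑ i ∈ I, (I.filter fun j => R i j).card := by
      have := Finset.sum_card_bipartiteAbove_eq_sum_card_bipartiteBelow (s := I) (t := I) R
      simp only [Finset.bipartiteAbove, Finset.bipartiteBelow] at this
      exact this.symm
    have hle : ∑ j ∈ I, (I.filter fun i => R i j).card ≤ ∑ _j ∈ I, s := by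
      rw [hdc]
      exact Finset.sum_le_sum fun i hi => hout i hi _ (filter_subset _ _)
        (fun j hj => (mem_filter.1 hj).2)
    obtain ⟨j, hj, hjs⟩ := Finset.exists_le_of_sum_le hne hle
    set I' := I.filter (fun i => i ≠ j ∧ ¬R i j ∧ ¬R j i) with hI'
    have hsub : I ⊆ I' ∪ ({j} ∪ ((I.filter fun i => R i j) ∪ (I.filter fun i => R j i))) := by
      intro i hi
      by_cases h1 : i = j
      · simp [h1]
      by_cases h2 : R i j
      · simp [hi, h2]
      by_cases h3 : R j i
      · simp [hi, h3]
      · simp [hI', hi, h1, h2, h3]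
    have hc := card_le_card hsub
    have c1 := card_union_le I' ({j} ∪ ((I.filter fun i => R i j) ∪ (I.filter fun i => R j i)))
    have c2 := card_union_le {j} ((I.filter fun i => R i j) ∪ (I.filter fun i => R j i))
    have c3 := card_union_le (I.filter fun i => R i j) (I.filter fun i => R j i)
    have c4 := hout j hj (I.filter fun i => R j i) (filter_subset _ _)
      (fun i hi => (mem_filter.1 hi).2)
    have c5 : ({j} : Finset ι).card = 1 := card_singleton j
    have c6 : (k + 1) * (2 * s + 1) = k * (2 * s + 1) + (2 * s + 1) := by ring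
    obtain ⟨J, hJI, hJc, hJ⟩ := ih I'
      (fun i hi T hT hTR => hout i (filter_subset _ _ hi) T (hT.trans (filter_subset _ _)) hTR)
      (by omega)
    have hjJ : j ∉ J := by
      intro h
      have := (mem_filter.1 (hJI h)).2.1
      exact this rfl
    refine ⟨insert j J, ?_, ?_, ?_⟩
    · intro i hi
      rcases mem_insert.1 hi with rfl | hi
      · exact hj
      · exact filter_subset _ _ (hJI hi)
    · rw [card_insert_of_notMem hjJ, hJc]
    · intro a ha b hb hab
      rcases mem_insert.1 ha with ha' | ha' <;> rcases mem_insert.1 hb with hb' | hb'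
      · exact absurd (ha'.trans hb'.symm) hab
      · rw [ha']; exact (mem_filter.1 (hJI hb')).2.2.2
      · rw [hb']; exact (mem_filter.1 (hJI ha')).2.2.1
      · exact hJ a ha' b hb' hab

variable {V : Type}

/-- `v` is the root of an `M`-ary homogeneous subtree of height `h` with direction pattern `f`. -/
def Hom (D : Drw V) (M : ℕ) : ℕ → (List (Fin 5) → Bool) → V → Prop
  | 0, _, _ => True
  | h + 1, f, v => ∀ A, ∃ s : Finset V, M ≤ s.card ∧ ∀ c ∈ s, D.ch v A c ∧ D.dir c = f [A] ∧
      Hom D M h (fun l => f (A :: l)) c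

variable {D : Drw V}

lemma Hom.pred {M : ℕ} : ∀ {h : ℕ} {f : List (Fin 5) → Bool} {v : V},
    Hom D M (h + 1) f v → Hom D M h f v
  | 0, _, _, _ => trivial
  | h + 1, f, v, H => by
    intro A
    obtain ⟨s, hs, hc⟩ := H A
    exact ⟨s, hs, fun c h1 => ⟨(hc c h1).1, (hc c h1).2.1, Hom.pred (hc c h1).2.2⟩⟩

lemma Hom.mono {M h h' : ℕ} {f : List (Fin 5) → Bool} {v : V} (hh : h' ≤ h)
    (H : Hom D M h f v) : Hom D M h' f v := by
  induction hh with
  | refl => exact H
  | step _ ih => exact ih H.pred

lemma Hom.mir {M : ℕ} : ∀ {h : ℕ} {f : List (Fin 5) → Bool} {v : V},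
    Hom D M h f v → Hom D.mir M h (fun l => !f (l.map Fin.rev)) v
  | 0, _, _, _ => trivial
  | h + 1, f, v, H => by
    intro A
    obtain ⟨s, hs, hc⟩ := H A.rev
    refine ⟨s, hs, fun c h1 => ⟨(hc c h1).1, ?_, ?_⟩⟩
    · rw [mir_dir (hc c h1).1, (hc c h1).2.1]
      simp
    · have := Hom.mir (hc c h1).2.2
      simpa using this

/-- one descendant for every label sequence -/
lemma skel {M : ℕ} (hM : 1 ≤ M) : ∀ (h : ℕ) (f : List (Fin 5) → Bool) (c : V),
    Hom D M h f c → ∃ G : List (Fin 5) → V, G [] = c ∧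
      (∀ l A, l.length < h → D.ch (G l) A (G (l ++ [A]))) ∧
      ∀ l, l ≠ [] → l.length ≤ h → D.dir (G l) = f l := by
  intro h
  induction h with
  | zero =>
    intro f c _
    refine ⟨fun _ => c, rfl, fun l A hl => absurd hl (by omega), fun l hl hl' => ?_⟩
    exact absurd (List.length_eq_zero_iff.1 (by omega)) hl
  | succ h ih =>
    intro f c H
    have : ∀ A, ∃ cA : V, ∃ G : List (Fin 5) → V, (D.ch c A cA ∧ D.dir cA = f [A]) ∧ G [] = cA ∧
        (∀ l A', l.length < h → D.ch (G l) A' (G (l ++ [A']))) ∧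
        ∀ l, l ≠ [] → l.length ≤ h → D.dir (G l) = f (A :: l) := by
      intro A
      obtain ⟨s, hs, hc⟩ := H A
      have hne : s.Nonempty := card_pos.1 (by omega)
      obtain ⟨cA, hcA⟩ := hne
      obtain ⟨h1, h2, h3⟩ := hc cA hcA
      obtain ⟨G, g1, g2, g3⟩ := ih _ cA h3
      exact ⟨cA, G, ⟨h1, h2⟩, g1, g2, g3⟩
    choose cc GG h1 h2 h3 h4 using this
    refine ⟨fun l => match l with
      | [] => c
      | A :: l => GG A l, rfl, ?_, ?_⟩
    · intro l A hl
      cases l with
      | nil => simp only [List.nil_append]; rw [h2]; exact (h1 A).1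
      | cons A' l => exact h3 A' l A (by simpa using hl)
    · intro l hl hl'
      cases l with
      | nil => exact absurd rfl hl
      | cons A' l =>
        simp only
        by_cases hn : l = []
        · subst hn; rw [h2]; exact (h1 A').2
        · exact h4 A' l hn (by simpa using hl')

/-- position relative to the root of a homogeneous tree -/
def pos : (List (Fin 5) → Bool) → List (Fin 5) → ℤ
  | _, [] => 0
  | f, A :: l => stp (f [A]) A + pos (fun u => f (A :: u)) l

lemma pos_snoc : ∀ (f : List (Fin 5) → Bool) (l : List (Fin 5)) (A : Fin 5),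
    pos f (l ++ [A]) = pos f l + stp (f (l ++ [A])) A
  | f, [], A => by simp [pos]
  | f, A' :: l, A => by
    simp only [List.cons_append, pos]
    rw [pos_snoc]
    ring

end Pool.Agent.H44.Pin
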