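import Pool.Agent.H44.Pin.Sel

/-! Seven conflict-free copies of a homogeneous subtree. -/

namespace Pool.Agent.H44.Pin

open Finset

variable {V : Type} {D : Drw V}

/-- The finite set of label sequences of length at most `h`. -/
noncomputable def Nm (h : ℕ) : Finset (List (Fin 5)) :=
  (List.finite_length_le (Fin 5) h).toFinset

lemma mem_Nm {h : ℕ} {l : List (Fin 5)} : l ∈ Nm h ↔ l.length ≤ h := by
  unfold Nm; simp

/-- enough children -/
noncomputable def M0 (h : ℕ) : ℕ := 7 * (2 * (Nm h).card + 1) + 1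

lemma skel_dep {G : List (Fin 5) → V} {h : ℕ} {c : V} (h0 : G [] = c)
    (h1 : ∀ l A, l.length < h → D.ch (G l) A (G (l ++ [A]))) :
    ∀ l : List (Fin 5), l.length ≤ h → D.dep (G l) = D.dep c + l.length := by
  intro l
  induction l using List.reverseRecOn with
  | nil => intro _; simp [h0]
  | append_singleton l A ih =>
    intro hl
    rw [List.length_append, List.length_singleton] at hl
    rw [D.ch_dep (h1 l A (by omega)), ih (by omega)]
    simp
    ring

lemma skel_anc {G G' : List (Fin 5) → V} {h : ℕ} {c c' : V} (h0 : G [] = c)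
    (h1 : ∀ l A, l.length < h → D.ch (G l) A (G (l ++ [A]))) (h0' : G' [] = c')
    (h1' : ∀ l A, l.length < h → D.ch (G' l) A (G' (l ++ [A]))) :
    ∀ l l' : List (Fin 5), l.length = l'.length → l.length ≤ h → G l = G' l' → c = c' := by
  intro l
  induction l using List.reverseRecOn with
  | nil =>
    intro l' hl _ he
    have : l' = [] := List.length_eq_zero_iff.1 (by simpa using hl.symm)
    subst this
    rw [← h0, ← h0', he]
  | append_singleton l A ih =>
    intro l' hl hh he
    rw [List.length_append, List.length_singleton] at hl hh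
    rcases List.eq_nil_or_concat l' with rfl | ⟨l'', A', rfl⟩
    · simp at hl
    · rw [List.concat_eq_append] at hl he
      rw [List.length_append, List.length_singleton] at hl
      have e1 := D.ch_par (h1 l A (by omega))
      have e2 := D.ch_par (h1' l'' A' (by omega))
      exact ih l'' (by omega) (by omega) (by rw [← e1, ← e2, he])

lemma skel_LV {G : List (Fin 5) → V} {h : ℕ} {f : List (Fin 5) → Bool} {X0 : LV D}
    (h0 : G [] = X0.v)
    (h1 : ∀ l A, l.length < h → D.ch (G l) A (G (l ++ [A])))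
    (h2 : ∀ l, l ≠ [] → l.length ≤ h → D.dir (G l) = f l) :
    ∃ X : List (Fin 5) → LV D, ∀ l, l.length ≤ h → (X l).v = G l ∧ (X l).P = X0.P + pos f l := by
  have : ∀ l : List (Fin 5), ∃ Y : LV D, l.length ≤ h → Y.v = G l ∧ Y.P = X0.P + pos f l := by
    intro l
    induction l using List.reverseRecOn with
    | nil => exact ⟨X0, fun _ => ⟨h0.symm, by simp [pos]⟩⟩
    | append_singleton l A ih =>
      obtain ⟨Y, hY⟩ := ih
      by_cases hl : (l ++ [A]).length ≤ h
      · have hl' := hl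
        rw [List.length_append, List.length_singleton] at hl'
        obtain ⟨y1, y2⟩ := hY (by omega)
        have hc := h1 l A (by omega)
        rw [← y1] at hc
        obtain ⟨Z, z1, z2⟩ := child Y hc
        refine ⟨Z, fun _ => ⟨z1, ?_⟩⟩
        rw [z2, y2, pos_snoc, h2 _ (by simp) hl]
        ring
      · exact ⟨X0, fun h => absurd h hl⟩
  choose X hX using this
  exact ⟨X, hX⟩

theorem seven {M h : ℕ} {f : List (Fin 5) → Bool} (X0 : LV D) (A0 : Fin 5)
    (H : Hom D M (h + 1) f X0.v) (hM : M0 h ≤ M) :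
    ∃ X : Fin 7 → List (Fin 5) → LV D,
      (∀ i, D.ch X0.v A0 (X i []).v) ∧
      (∀ i l A, l.length < h → D.ch (X i l).v A (X i (l ++ [A])).v) ∧
      (∀ i l, l.length ≤ h → (X i l).P = X0.P + pos f (A0 :: l)) ∧
      (∀ i l, l.length ≤ h → D.dep (X i l).v = D.dep X0.v + 1 + l.length) ∧
      (∀ i j, i ≠ j → ∀ l l', l.length ≤ h → l'.length ≤ h → (X i l).v ≠ (X j l').v ∧
        D.p (X i l).v ∉ D.seg (X j l').v) ∧
      (∀ i l, l.length ≤ h → D.p X0.v ∉ D.seg (X i l).v) := by
  classical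
  obtain ⟨s, hs, hc⟩ := H A0
  have hM1 : 1 ≤ M := le_trans (by unfold M0; omega) hM
  have : ∀ c : V, ∃ G : List (Fin 5) → V, c ∈ s → G [] = c ∧
      (∀ l A, l.length < h → D.ch (G l) A (G (l ++ [A]))) ∧
      ∀ l, l ≠ [] → l.length ≤ h → D.dir (G l) = f (A0 :: l) := by
    intro c
    by_cases hcs : c ∈ s
    · obtain ⟨G, hG⟩ := skel hM1 h _ c (hc c hcs).2.2
      exact ⟨G, fun _ => hG⟩
    · exact ⟨fun _ => c, fun h => absurd h hcs⟩
  choose G hG using this
  -- distinctness
  have hdep : ∀ c ∈ s, ∀ l : List (Fin 5), l.length ≤ h →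
      D.dep (G c l) = D.dep X0.v + 1 + l.length := by
    intro c hcs l hl
    rw [skel_dep (hG c hcs).1 (hG c hcs).2.1 l hl, D.ch_dep (hc c hcs).1]
  have hdist : ∀ c ∈ s, ∀ c' ∈ s, ∀ l l' : List (Fin 5), l.length ≤ h → l'.length ≤ h →
      G c l = G c' l' → c = c' := by
    intro c hcs c' hcs' l l' hl hl' he
    have hll : l.length = l'.length := by
      have e1 := hdep c hcs l hl
      have e2 := hdep c' hcs' l' hl'
      rw [he, e2] at e1
      omega
    exact skel_anc (hG c hcs).1 (hG c hcs).2.1 (hG c' hcs').1 (hG c' hcs').2.1 l l' hll hl he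
  have hisCh : ∀ c ∈ s, ∀ l : List (Fin 5), l.length ≤ h → D.isCh (G c l) := by
    intro c hcs l hl
    apply Drw.isCh_of
    rcases List.eq_nil_or_concat l with rfl | ⟨l', A', rfl⟩
    · exact ⟨X0.v, A0, by rw [(hG c hcs).1]; exact (hc c hcs).1⟩
    · rw [List.concat_eq_append] at hl ⊢
      rw [List.length_append, List.length_singleton] at hl
      exact ⟨_, _, (hG c hcs).2.1 l' A' (by omega)⟩
  -- leaks
  let L : V → V → Prop := fun w c => ∃ l ∈ Nm h, D.p w ∈ D.seg (G c l)
  have hLu : ∀ w, ∀ c ∈ s, ∀ c' ∈ s, L w c → L w c' → c = c' := by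
    rintro w c hcs c' hcs' ⟨l, hl, hw⟩ ⟨l', hl', hw'⟩
    rw [mem_Nm] at hl hl'
    by_contra hne
    have hne' : G c l ≠ G c' l' := fun he => hne (hdist c hcs c' hcs' l l' hl hl' he)
    exact Set.disjoint_left.1 (D.nc' (hisCh c hcs l hl) (hisCh c' hcs' l' hl') hne') hw hw'
  let Rr : V → V → Prop := fun c c' => ∃ l ∈ Nm h, L (G c l) c'
  set I := s.filter (fun c => ¬L X0.v c) with hI
  have hIs : I ⊆ s := filter_subset _ _
  have hIcard : M ≤ I.card + 1 := by
    have h1 : (s.filter (fun c => L X0.v c)).card ≤ 1 := by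
      rw [card_le_one]
      intro a ha b hb
      rw [mem_filter] at ha hb
      exact hLu _ a ha.1 b hb.1 ha.2 hb.2
    have h2 : (s.filter (fun c => L X0.v c)).card + I.card = s.card := by
      rw [hI]; exact card_filter_add_card_filter_not _
    omega
  obtain ⟨J, hJI, hJc, hJ⟩ := indep Rr (Nm h).card 7 I (by
    intro i hi T hT hTR
    choose! ll hll1 hll2 using hTR
    apply card_le_card_of_injOn ll (fun j hj => hll1 j hj)
    intro j hj j' hj' he
    have h1 := hll2 j hj
    have h2 := hll2 j' hj'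
    rw [← he] at h2
    exact hLu _ j (hIs (hT hj)) j' (hIs (hT hj')) h1 h2) (by unfold M0 at hM; omega)
  let e := (J.equivFinOfCardEq hJc).symm
  have heJ : ∀ i, (e i : V) ∈ J := fun i => (e i).2
  have heI : ∀ i, (e i : V) ∈ I := fun i => hJI (heJ i)
  have hes : ∀ i, (e i : V) ∈ s := fun i => hIs (heI i)
  have hene : ∀ i j, i ≠ j → (e i : V) ≠ (e j : V) := by
    intro i j hij h
    exact hij (e.injective (Subtype.ext h))
  have hX : ∀ i, ∃ X : List (Fin 5) → LV D, ∀ l, l.length ≤ h → (X l).v = G (e i) l ∧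
      (X l).P = X0.P + pos f (A0 :: l) := by
    intro i
    obtain ⟨q1, q2, q3⟩ := hc _ (hes i)
    obtain ⟨r1, r2, r3⟩ := hG _ (hes i)
    obtain ⟨Y, y1, y2⟩ := child X0 q1
    obtain ⟨X, hX⟩ := skel_LV (X0 := Y) (r1.trans y1.symm) r2 r3
    refine ⟨X, fun l hl => ⟨(hX l hl).1, ?_⟩⟩
    rw [(hX l hl).2, y2, q2]
    simp only [pos]
    ring
  choose X hX using hX
  refine ⟨X, ?_, ?_, ?_, ?_, ?_, ?_⟩
  · intro i
    rw [(hX i [] (by simp)).1, (hG _ (hes i)).1]
    exact (hc _ (hes i)).1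
  · intro i l A hl
    rw [(hX i l hl.le).1, (hX i (l ++ [A]) (by simp; omega)).1]
    exact (hG _ (hes i)).2.1 l A hl
  · intro i l hl
    exact (hX i l hl).2
  · intro i l hl
    rw [(hX i l hl).1]
    exact hdep _ (hes i) l hl
  · intro i j hij l l' hl hl'
    rw [(hX i l hl).1, (hX j l' hl').1]
    constructor
    · intro he
      exact hene i j hij (hdist _ (hes i) _ (hes j) l l' hl hl' he)
    · intro hm
      exact hJ _ (heJ i) _ (heJ j) (hene i j hij) ⟨l, mem_Nm.2 hl, l', mem_Nm.2 hl', hm⟩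
  · intro i l hl hm
    rw [(hX i l hl).1] at hm
    exact (mem_filter.1 (heI i)).2 ⟨l, mem_Nm.2 hl, hm⟩

/-- assembling a pattern -/
def asm (b : Bool) (g : Fin 5 → List (Fin 5) → Bool) : List (Fin 5) → Bool
  | [] => b
  | A :: l => g A l

open Classical in
/-- The finitely many patterns of height `h`. -/
noncomputable def Pat : ℕ → Finset (List (Fin 5) → Bool)
  | 0 => (Finset.univ : Finset Bool).image (fun b => fun _ => b)
  | h + 1 => ((Finset.univ : Finset Bool) ×ˢ Fintype.piFinset (fun _ : Fin 5 => Pat h)).image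
      (fun x => asm x.1 x.2)

lemma Pat_nonempty : ∀ h, (Pat h).Nonempty
  | 0 => ⟨fun _ => true, by simp [Pat]⟩
  | h + 1 => by
    classical
    obtain ⟨f, hf⟩ := Pat_nonempty h
    refine ⟨asm true (fun _ => f), ?_⟩
    rw [Pat, mem_image]
    refine ⟨(true, fun _ => f), ?_, rfl⟩
    simp [hf]

theorem homog {M H : ℕ}
    (rich : ∀ v, D.good v → D.dep v < H → ∀ A, ∃ s : Finset V,
      (∀ h < H, (Pat h).card * M ≤ s.card) ∧ ∀ c ∈ s, D.ch v A c) :
    ∀ h v, D.good v → D.dep v + h ≤ H → ∃ f ∈ Pat h, f [] = D.dir v ∧ Hom D M h f v := by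
  classical
  intro h
  induction h with
  | zero =>
    intro v _ _
    exact ⟨fun _ => D.dir v, mem_image.2 ⟨D.dir v, mem_univ _, rfl⟩, rfl, trivial⟩
  | succ h ih =>
    intro v hv hd
    have key : ∀ A, ∃ g ∈ Pat h, ∃ s : Finset V, M ≤ s.card ∧ ∀ c ∈ s, D.ch v A c ∧
        D.dir c = g [] ∧ Hom D M h g c := by
      intro A
      obtain ⟨s, hs, hc⟩ := rich v hv (by omega) A
      have hex : ∀ c, ∃ g : List (Fin 5) → Bool, c ∈ s → g ∈ Pat h ∧ g [] = D.dir c ∧
          Hom D M h g c := by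
        intro c
        by_cases hcs : c ∈ s
        · obtain ⟨g, g1, g2, g3⟩ := ih c (D.ch_good (hc c hcs)).2
            (by rw [D.ch_dep (hc c hcs)]; omega)
          exact ⟨g, fun _ => ⟨g1, g2, g3⟩⟩
        · exact ⟨fun _ => true, fun h => absurd h hcs⟩
      choose g hg using hex
      obtain ⟨y, hy, hy'⟩ := exists_le_card_fiber_of_mul_le_card_of_maps_to
        (fun c hcs => (hg c hcs).1) (Pat_nonempty h) (hs h (by omega))
      refine ⟨y, hy, _, hy', ?_⟩
      intro c hc'
      rw [mem_filter] at hc'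
      obtain ⟨g1, g2, g3⟩ := hg c hc'.1
      rw [hc'.2] at g2 g3
      exact ⟨hc c hc'.1, g2.symm, g3⟩
    choose g hg s hs hc using key
    refine ⟨asm (D.dir v) g, ?_, rfl, ?_⟩
    · rw [Pat, mem_image]
      refine ⟨(D.dir v, g), ?_, rfl⟩
      simp [hg]
    · intro A
      exact ⟨s A, hs A, fun c h1 => hc A c h1⟩

end Pool.Agent.H44.Pin
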