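import Pool.Agent.H44.Pin.Prop

/-! The universal tree. -/

namespace Pool.Agent.H44.Pin

/-- Vertices of the universal tree: label sequences of length at most `H`. -/
abbrev UV (N H : ℕ) : Type := {l : List (Fin 5 × Fin N) // l.length ≤ H}

instance (N H : ℕ) : Finite (UV N H) := (List.finite_length_le (Fin 5 × Fin N) H).to_subtype

/-- The parent of a vertex. -/
def upar {N H : ℕ} (v : UV N H) : UV N H := ⟨v.1.tail, by
  have := v.2
  rw [List.length_tail]
  omega⟩

/-- The root. -/
def uroot (N H : ℕ) : UV N H := ⟨[], by simp⟩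

/-- The universal tree. -/
def UT (N H : ℕ) : SimpleGraph (UV N H) :=
  SimpleGraph.fromRel (fun u v => ∃ x, v.1 = x :: u.1)

lemma UT_adj_of {N H : ℕ} {u v : UV N H} {x : Fin 5 × Fin N} (h : v.1 = x :: u.1) :
    (UT N H).Adj u v := by
  rw [UT, SimpleGraph.fromRel_adj]
  refine ⟨?_, Or.inl ⟨x, h⟩⟩
  rintro rfl
  have := congrArg List.length h
  simp at this

lemma upar_spec {N H : ℕ} {v : UV N H} (hv : v ≠ uroot N H) : ∃ x, v.1 = x :: (upar v).1 := by
  obtain ⟨l, hl⟩ := v
  cases l with
  | nil => exact absurd rfl hv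
  | cons x l => exact ⟨x, rfl⟩

lemma UT_reach {N H : ℕ} : ∀ (n : ℕ) (v : UV N H), v.1.length = n →
    (UT N H).Reachable (uroot N H) v := by
  intro n
  induction n with
  | zero =>
    intro v hv
    have : v = uroot N H := Subtype.ext (List.length_eq_zero_iff.1 hv)
    rw [this]
  | succ n ih =>
    intro v hv
    have hne : v ≠ uroot N H := by
      rintro rfl
      simp [uroot] at hv
    obtain ⟨x, hx⟩ := upar_spec hne
    have h1 := ih (upar v) (by
      have := congrArg List.length hx
      rw [List.length_cons] at this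
      omega)
    exact h1.trans (UT_adj_of hx).reachable

lemma UT_tree (N H : ℕ) : (UT N H).IsTree := by
  classical
  rw [SimpleGraph.isTree_iff_connected_and_card]
  constructor
  · haveI : Nonempty (UV N H) := ⟨uroot N H⟩
    refine SimpleGraph.Connected.mk fun u v => ?_
    exact (UT_reach _ u rfl).symm.trans (UT_reach _ v rfl)
  · haveI : Fintype (UV N H) := Fintype.ofFinite _
    let F : {v : UV N H // v ≠ uroot N H} → (UT N H).edgeSet := fun v =>
      ⟨s(upar v.1, v.1), by
        obtain ⟨x, hx⟩ := upar_spec v.2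
        exact UT_adj_of hx⟩
    have hF : Function.Bijective F := by
      constructor
      · rintro ⟨v, hv⟩ ⟨w, hw⟩ h
        have h' : s(upar v, v) = s(upar w, w) := congrArg Subtype.val h
        rw [Sym2.eq_iff] at h'
        rcases h' with ⟨-, h'⟩ | ⟨h1, h2⟩
        · exact Subtype.ext h'
        · exfalso
          obtain ⟨x, hx⟩ := upar_spec hv
          obtain ⟨y, hy⟩ := upar_spec hw
          have e1 := congrArg List.length hx
          have e2 := congrArg List.length hy
          rw [h1, List.length_cons] at e1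
          rw [← h2, List.length_cons] at e2
          omega
      · rintro ⟨e, he⟩
        induction e using Sym2.ind with
        | _ u v =>
        rw [SimpleGraph.mem_edgeSet, UT, SimpleGraph.fromRel_adj] at he
        obtain ⟨-, ⟨x, hx⟩ | ⟨x, hx⟩⟩ := he
        · have hv : v ≠ uroot N H := by
            rintro rfl
            simp [uroot] at hx
          refine ⟨⟨v, hv⟩, Subtype.ext ?_⟩
          have : upar v = u := Subtype.ext (by simp [upar, hx])
          simp only [F, this]
        · have hu : u ≠ uroot N H := by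
            rintro rfl
            simp [uroot] at hx
          refine ⟨⟨u, hu⟩, Subtype.ext ?_⟩
          have : upar u = v := Subtype.ext (by simp [upar, hx])
          simp only [F, this]
          exact Sym2.eq_swap
    rw [← Nat.card_congr (Equiv.ofBijective F hF)]
    have h1 : Nat.card {v : UV N H // v ≠ uroot N H} = Fintype.card (UV N H) - 1 := by
      rw [Nat.card_eq_fintype_card]
      exact Set.card_ne_eq _
    have h2 : 0 < Fintype.card (UV N H) := Fintype.card_pos_iff.2 ⟨uroot N H⟩
    rw [h1, Nat.card_eq_fintype_card]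
    omega

/-- The cell number of a vertex. -/
def ukap {N : ℕ} : List (Fin 5 × Fin N) → ℤ
  | [] => 0
  | x :: l => ukap l + ((x.1.val : ℤ) + 1)

lemma ukap_nonneg {N : ℕ} : ∀ l : List (Fin 5 × Fin N), 0 ≤ ukap l
  | [] => le_rfl
  | x :: l => by
    have := ukap_nonneg l
    have h2 : (0 : ℤ) ≤ x.1.val := by positivity
    unfold ukap
    omega

/-- the drawing of the universal tree given by a placement of its vertices -/
noncomputable def uD {N H : ℕ} (q : UV N H → ℝ × ℝ) (hq : Function.Injective q)
    (θ : UV N H → ℝ) (hθ : ∀ v, (B (ukap v.1 % 6) : ℝ) < θ v ∧ θ v < (B (ukap v.1 % 6) : ℝ) + 1)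
    (hl : ∀ v, ∃ r : ℝ, q v = (r * C (θ v), -(r * S (θ v))))
    (hc : ∀ u v u' v', (UT N H).Adj u v → (UT N H).Adj u' v' → s(u, v) ≠ s(u', v') →
      Disjoint (openSegment ℝ (q u) (q v)) (openSegment ℝ (q u') (q v'))) :
    Drw (UV N H) where
  p := q
  par := upar
  dep := fun v => v.1.length
  κ := fun v => ukap v.1
  good := fun v => q v ≠ 0
  ch := fun v A c => q v ≠ 0 ∧ q c ≠ 0 ∧ ∃ i, c.1 = (A, i) :: v.1
  ch_good := fun h => ⟨h.1, h.2.1⟩
  ch_par := by
    rintro v A c ⟨-, -, i, h⟩
    exact Subtype.ext (by simp [upar, h])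
  ch_dep := by
    rintro v A c ⟨-, -, i, h⟩
    rw [h, List.length_cons]
  ch_κ := by
    rintro v A c ⟨-, -, i, h⟩
    exact ⟨0, by rw [h, ukap]; ring⟩
  inj := fun h => hq h
  line := by
    intro v hv
    obtain ⟨r, hr⟩ := hl v
    have hr0 : r ≠ 0 := by
      rintro rfl
      exact hv (by rw [hr]; simp)
    set m : ℤ := ukap v.1 / 6 with hm
    have hκ : ukap v.1 = ukap v.1 % 6 + 6 * m := by omega
    refine ⟨θ v + 12 * m, r * (-1) ^ m, ?_, ?_, ?_, ?_⟩
    · exact mul_ne_zero hr0 (zpow_ne_zero _ (by norm_num))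
    · rw [hκ, B_add]; push_cast; linarith [(hθ v).1]
    · rw [hκ, B_add]; push_cast; linarith [(hθ v).2]
    · rw [hr, C_shift, S_shift]
      have := neg_one_zpow_sq m
      ext
      · show r * C (θ v) = r * (-1) ^ m * ((-1) ^ m * C (θ v))
        linear_combination (-(r * C (θ v))) * this
      · show -(r * S (θ v)) = -(r * (-1) ^ m * ((-1) ^ m * S (θ v)))
        linear_combination (r * S (θ v)) * this
  nc := by
    rintro v A c v' A' c' ⟨-, -, i, h⟩ ⟨-, -, i', h'⟩ hne
    refine hc v c v' c' (UT_adj_of h) (UT_adj_of h') ?_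
    intro he
    rw [Sym2.eq_iff] at he
    rcases he with ⟨-, he⟩ | ⟨h1, h2⟩
    · exact hne he
    · rw [h2] at h
      rw [← h1, h] at h'
      have := congrArg List.length h'
      simp at this
      omega

end Pool.Agent.H44.Pin
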